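import Mathlib

set_option autoImplicit false

namespace Pool.Agent.La9f24d

open Finset PowerSeries

section

variable {ι : Type*} [Fintype ι] [DecidableEq ι]

/-- the slice of multi-indices of total degree `k` -/
def Gam (ι : Type*) [Fintype ι] [DecidableEq ι] (k : ℕ) : Finset (ι →₀ ℕ) :=
  finsuppAntidiag univ k

lemma mem_Gam {k : ℕ} {α : ι →₀ ℕ} : α ∈ Gam ι k ↔ ∑ i, α i = k := by
  simp [Gam, mem_finsuppAntidiag]

/-- the weights -/
def wt (α β : ι →₀ ℕ) : ℕ := ∏ i, (α i + β i).choose (α i)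

omit [DecidableEq ι] in
lemma wt_comm (α β : ι →₀ ℕ) : wt α β = wt β α := by
  unfold wt
  refine prod_congr rfl fun i _ => ?_
  rw [add_comm (β i), Nat.choose_symm_add]

lemma sum_wt (α : ι →₀ ℕ) (m : ℕ) :
    ((∑ β ∈ Gam ι m, wt α β : ℕ) : ℤ) = coeff m ((PowerSeries.mk 1 : PowerSeries ℤ) ^
      ((∑ i, α i) + Fintype.card ι)) := by
  have h1 : (PowerSeries.mk 1 : PowerSeries ℤ) ^ ((∑ i, α i) + Fintype.card ι)
      = ∏ i : ι, (PowerSeries.mk 1 : PowerSeries ℤ) ^ (α i + 1) := by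
    rw [prod_pow_eq_pow_sum]
    congr 1
    rw [sum_add_distrib]
    simp
  rw [h1, PowerSeries.coeff_prod]
  push_cast
  refine sum_congr rfl fun β _ => ?_
  unfold wt
  push_cast
  refine prod_congr rfl fun i _ => ?_
  rw [mk_one_pow_eq_mk_choose_add]
  simp

lemma sum_wt_eq {k : ℕ} {α α' : ι →₀ ℕ} (hα : α ∈ Gam ι k) (hα' : α' ∈ Gam ι k) (m : ℕ) :
    ∑ β ∈ Gam ι m, wt α β = ∑ β ∈ Gam ι m, wt α' β := by
  rw [mem_Gam] at hα hα'
  have h : ((∑ β ∈ Gam ι m, wt α β : ℕ) : ℤ) = ((∑ β ∈ Gam ι m, wt α' β : ℕ) : ℤ) := by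
    rw [sum_wt, sum_wt, hα, hα']
  exact_mod_cast h

lemma sum_choose (τ : ι →₀ ℕ) (k : ℕ) :
    ∑ α ∈ Gam ι k, ∏ i, (τ i).choose (α i) = (∑ i, τ i).choose k := by
  have h1 : coeff k ((1 + PowerSeries.X : PowerSeries ℕ) ^ (∑ i, τ i)) =
      (∑ i, τ i).choose k := by
    have : (1 + PowerSeries.X : PowerSeries ℕ) ^ (∑ i, τ i) =
      (((1 + Polynomial.X : Polynomial ℕ) ^ (∑ i, τ i) : Polynomial ℕ) : PowerSeries ℕ) := by
      simp
    rw [this, Polynomial.coeff_coe, Polynomial.coeff_one_add_X_pow]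
    simp
  rw [← h1, ← prod_pow_eq_pow_sum, PowerSeries.coeff_prod]
  refine sum_congr rfl fun α _ => ?_
  refine prod_congr rfl fun i _ => ?_
  have : (1 + PowerSeries.X : PowerSeries ℕ) ^ (τ i) =
      (((1 + Polynomial.X : Polynomial ℕ) ^ (τ i) : Polynomial ℕ) : PowerSeries ℕ) := by
    simp
  rw [this, Polynomial.coeff_coe, Polynomial.coeff_one_add_X_pow]
  simp

lemma sum_shift {k m : ℕ} {α : ι →₀ ℕ} (hα : α ∈ Gam ι k) (f : (ι →₀ ℕ) → ℝ) :
    ∑ τ ∈ Gam ι (k + m), ((∏ i, (τ i).choose (α i) : ℕ) : ℝ) * f τ =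
      ∑ β ∈ Gam ι m, (wt α β : ℝ) * f (α + β) := by
  have hinj : Function.Injective (fun β : ι →₀ ℕ => α + β) := fun a b h => add_left_cancel h
  have h1 : ∑ β ∈ Gam ι m, (wt α β : ℝ) * f (α + β) =
      ∑ τ ∈ (Gam ι m).image (fun β => α + β), ((∏ i, (τ i).choose (α i) : ℕ) : ℝ) * f τ := by
    rw [sum_image (fun a _ b _ h => hinj h)]
    refine sum_congr rfl fun β _ => ?_
    simp [wt]
  rw [h1]
  symm
  refine sum_subset ?_ ?_
  · intro τ hτ
    rw [mem_image] at hτ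
    obtain ⟨β, hβ, rfl⟩ := hτ
    rw [mem_Gam] at *
    simp only [Finsupp.coe_add, Pi.add_apply, sum_add_distrib]
    rw [hα, hβ]
  · intro τ hτ hτ'
    have : ∃ i, τ i < α i := by
      by_contra hcon
      push Not at hcon
      apply hτ'
      rw [mem_image]
      refine ⟨τ - α, ?_, ?_⟩
      · rw [mem_Gam] at *
        simp only [Finsupp.coe_tsub, Pi.sub_apply]
        have h2 : ∑ i, (τ i - α i) = ∑ i, τ i - ∑ i, α i := by
          rw [Finset.sum_tsub_distrib]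
          intro i _; exact hcon i
        rw [h2, hτ, hα]; simp
      · exact add_tsub_cancel_of_le (Finsupp.le_def.mpr hcon)
    obtain ⟨i, hi⟩ := this
    have : ∏ i, (τ i).choose (α i) = 0 := prod_eq_zero (mem_univ i) (Nat.choose_eq_zero_of_lt hi)
    rw [this]; simp

lemma double_sum (k m : ℕ) (f : (ι →₀ ℕ) → ℝ) :
    ((k + m).choose k : ℝ) * ∑ τ ∈ Gam ι (k + m), f τ =
      ∑ α ∈ Gam ι k, ∑ β ∈ Gam ι m, (wt α β : ℝ) * f (α + β) := by
  have h1 : ∀ α ∈ Gam ι k, ∑ β ∈ Gam ι m, (wt α β : ℝ) * f (α + β) =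
      ∑ τ ∈ Gam ι (k + m), ((∏ i, (τ i).choose (α i) : ℕ) : ℝ) * f τ :=
    fun α hα => (sum_shift hα f).symm
  rw [sum_congr rfl h1, sum_comm, mul_sum]
  refine sum_congr rfl fun τ hτ => ?_
  rw [← sum_mul, ← Nat.cast_sum, sum_choose, mem_Gam.mp hτ]

/-- Averages of a subadditive function over the slices are subadditive (Polya urn coupling). -/
theorem avg_subadditive [Nonempty ι] (f : (ι →₀ ℕ) → ℝ) (hf : ∀ α β, f (α + β) ≤ f α + f β)
    (k m : ℕ) :
    (∑ τ ∈ Gam ι (k + m), f τ) / (Gam ι (k + m)).card ≤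
      (∑ α ∈ Gam ι k, f α) / (Gam ι k).card + (∑ α ∈ Gam ι m, f α) / (Gam ι m).card := by
  classical
  have hne : ∀ k, (Gam ι k).Nonempty := by
    intro k
    obtain ⟨i⟩ := ‹Nonempty ι›
    refine ⟨Finsupp.single i k, ?_⟩
    rw [mem_Gam]
    simp [Finsupp.single_apply]
  have hcard : ∀ k, (0 : ℝ) < (Gam ι k).card := fun k => by
    exact_mod_cast (hne k).card_pos
  obtain ⟨α0, hα0⟩ := hne k
  obtain ⟨β0, hβ0⟩ := hne m
  set c : ℝ := ∑ β ∈ Gam ι m, (wt α0 β : ℝ) with hc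
  set c' : ℝ := ∑ α ∈ Gam ι k, (wt β0 α : ℝ) with hc'
  have hcα : ∀ α ∈ Gam ι k, ∑ β ∈ Gam ι m, (wt α β : ℝ) = c := by
    intro α hα
    have := sum_wt_eq hα hα0 m
    rw [hc]
    exact_mod_cast this
  have hcβ : ∀ β ∈ Gam ι m, ∑ α ∈ Gam ι k, (wt β α : ℝ) = c' := by
    intro β hβ
    have := sum_wt_eq hβ hβ0 k
    rw [hc']
    exact_mod_cast this
  have hC : (0 : ℝ) < ((k + m).choose k : ℝ) := by
    exact_mod_cast Nat.choose_pos (Nat.le_add_right k m)
  -- cardinalities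
  have h1 : ((k + m).choose k : ℝ) * (Gam ι (k + m)).card = c * (Gam ι k).card := by
    have h := double_sum (ι := ι) k m (fun _ => (1 : ℝ))
    simp only [mul_one, sum_const, nsmul_eq_mul] at h
    rw [h, sum_congr rfl hcα, sum_const, nsmul_eq_mul, mul_comm]
  have h2 : ((k + m).choose k : ℝ) * (Gam ι (k + m)).card = c' * (Gam ι m).card := by
    have h := double_sum (ι := ι) k m (fun _ => (1 : ℝ))
    simp only [mul_one, sum_const, nsmul_eq_mul] at h
    rw [h, sum_comm]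
    have : ∀ β ∈ Gam ι m, ∑ α ∈ Gam ι k, (wt α β : ℝ) = c' := by
      intro β hβ
      rw [← hcβ β hβ]
      refine sum_congr rfl fun α _ => ?_
      rw [wt_comm]
    rw [sum_congr rfl this, sum_const, nsmul_eq_mul, mul_comm]
  -- the main inequality
  have h3 : ((k + m).choose k : ℝ) * ∑ τ ∈ Gam ι (k + m), f τ ≤
      c * ∑ α ∈ Gam ι k, f α + c' * ∑ β ∈ Gam ι m, f β := by
    rw [double_sum]
    calc ∑ α ∈ Gam ι k, ∑ β ∈ Gam ι m, (wt α β : ℝ) * f (α + β)
        ≤ ∑ α ∈ Gam ι k, ∑ β ∈ Gam ι m, ((wt α β : ℝ) * f α + (wt α β : ℝ) * f β) := by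
          refine sum_le_sum fun α _ => sum_le_sum fun β _ => ?_
          rw [← mul_add]
          have := hf α β
          gcongr
      _ = ∑ α ∈ Gam ι k, ∑ β ∈ Gam ι m, (wt α β : ℝ) * f α +
          ∑ α ∈ Gam ι k, ∑ β ∈ Gam ι m, (wt α β : ℝ) * f β := by
          simp only [sum_add_distrib]
      _ = c * ∑ α ∈ Gam ι k, f α + c' * ∑ β ∈ Gam ι m, f β := by
          congr 1
          · rw [mul_sum]
            refine sum_congr rfl fun α hα => ?_
            rw [← sum_mul, hcα α hα]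
          · rw [sum_comm, mul_sum]
            refine sum_congr rfl fun β hβ => ?_
            rw [← sum_mul, ← hcβ β hβ]
            congr 1
            refine sum_congr rfl fun α _ => ?_
            rw [wt_comm]
  have hP : 0 < ((k + m).choose k : ℝ) * (Gam ι (k + m)).card := mul_pos hC (hcard _)
  calc (∑ τ ∈ Gam ι (k + m), f τ) / (Gam ι (k + m)).card
      = (((k + m).choose k : ℝ) * ∑ τ ∈ Gam ι (k + m), f τ) /
          (((k + m).choose k : ℝ) * (Gam ι (k + m)).card) := by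
        rw [mul_div_mul_left _ _ hC.ne']
    _ ≤ (c * ∑ α ∈ Gam ι k, f α + c' * ∑ β ∈ Gam ι m, f β) /
          (((k + m).choose k : ℝ) * (Gam ι (k + m)).card) := by gcongr
    _ = (c * ∑ α ∈ Gam ι k, f α) / (c * (Gam ι k).card) +
        (c' * ∑ β ∈ Gam ι m, f β) / (c' * (Gam ι m).card) := by
        rw [add_div, ← h1, ← h2]
    _ = _ := by
        have hc0 : c ≠ 0 := by
          intro h
          rw [h1, h, zero_mul] at hP
          exact lt_irrefl _ hP
        have hc'0 : c' ≠ 0 := by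
          intro h
          rw [h2, h, zero_mul] at hP
          exact lt_irrefl _ hP
        rw [mul_div_mul_left _ _ hc0, mul_div_mul_left _ _ hc'0]

end

end Pool.Agent.La9f24d
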