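import Mathlib

set_option autoImplicit false

namespace Pool.Agent.La9f24d

open Finset

section

/-- Leibniz bound with a bound per column. -/
lemma norm_det_le_of_col {ι : Type*} [Fintype ι] [DecidableEq ι] (A : Matrix ι ι ℂ) (M : ι → ℝ)
    (h : ∀ i j, ‖A i j‖ ≤ M j) : ‖A.det‖ ≤ (Fintype.card ι).factorial * ∏ j, M j := by
  rw [Matrix.det_apply]
  calc ‖∑ σ : Equiv.Perm ι, Equiv.Perm.sign σ • ∏ i, A (σ i) i‖
      ≤ ∑ σ : Equiv.Perm ι, ‖Equiv.Perm.sign σ • ∏ i, A (σ i) i‖ := norm_sum_le _ _
    _ ≤ ∑ _σ : Equiv.Perm ι, ∏ j, M j := by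
        refine sum_le_sum fun σ _ => ?_
        have h1 : ‖Equiv.Perm.sign σ • ∏ i, A (σ i) i‖ = ‖∏ i, A (σ i) i‖ := by
          rcases Int.units_eq_one_or (Equiv.Perm.sign σ) with h | h <;> simp [h]
        rw [h1, norm_prod]
        exact prod_le_prod (fun i _ => norm_nonneg _) fun i _ => h _ _
    _ = _ := by
        rw [sum_const, card_univ, Fintype.card_perm, nsmul_eq_mul]

/-- successive choice of points making the determinant large -/
lemma exists_det_ge_fin {X : Type*} (K : Set X) (m : ℕ) (f : Fin m → X → ℂ) (Y : Fin m → ℝ)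
    (hY : ∀ i, 0 < Y i)
    (h : ∀ i (c : Fin m → ℂ), ∃ x ∈ K, Y i ≤ ‖f i x + ∑ j ∈ univ.filter (· < i), c j * f j x‖) :
    ∃ x : Fin m → X, (∀ i, x i ∈ K) ∧
      ∏ i, Y i ≤ ‖Matrix.det (Matrix.of fun i j => f j (x i))‖ := by
  induction m with
  | zero => exact ⟨fun i => i.elim0, fun i => i.elim0, by simp⟩
  | succ m ih =>
    obtain ⟨x, hxK, hx⟩ := ih (fun i => f i.castSucc) (fun i => Y i.castSucc)
      (fun i => hY _) (by
        intro i c
        obtain ⟨x, hxK, hx⟩ := h i.castSucc (fun j => if hj : (j : ℕ) < m then c ⟨j, hj⟩ else 0)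
        refine ⟨x, hxK, hx.trans (le_of_eq ?_)⟩
        congr 2
        symm
        rw [sum_filter, sum_filter, Fin.sum_univ_castSucc]
        have h1 : ¬ (Fin.last m < i.castSucc) := by
          rw [not_lt]; exact Fin.le_last _
        rw [if_neg h1, add_zero]
        refine sum_congr rfl fun j _ => ?_
        simp)
    set δ := Matrix.det (Matrix.of fun i j : Fin m => f j.castSucc (x i)) with hδ
    have hYprod : 0 < ∏ i : Fin m, Y i.castSucc := prod_pos fun i _ => hY _
    have hδ0 : δ ≠ 0 := by
      intro h0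
      rw [h0, norm_zero] at hx
      linarith
    -- the minors along the last row
    let A : X → Matrix (Fin (m + 1)) (Fin (m + 1)) ℂ := fun z =>
      Matrix.of fun i j => f j (Fin.snoc (α := fun _ => X) x z i)
    let c : Fin (m + 1) → ℂ := fun j =>
      (-1) ^ ((Fin.last m : Fin (m+1)) + j : ℕ) *
        Matrix.det (Matrix.of fun (i : Fin m) (k : Fin m) => f (j.succAbove k) (x i)) / δ
    obtain ⟨z, hzK, hz⟩ := h (Fin.last m) c
    refine ⟨Fin.snoc (α := fun _ => X) x z, ?_, ?_⟩
    · intro i
      refine Fin.lastCases ?_ (fun i => ?_) i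
      · simpa using hzK
      · simpa using hxK i
    · have hdet : Matrix.det (A z) = δ * (f (Fin.last m) z +
          ∑ j ∈ univ.filter (· < Fin.last m), c j * f j z) := by
        rw [Matrix.det_succ_row (A z) (Fin.last m)]
        have hminor : ∀ j : Fin (m + 1),
            Matrix.det ((A z).submatrix (Fin.last m).succAbove j.succAbove) =
            Matrix.det (Matrix.of fun (i : Fin m) (k : Fin m) => f (j.succAbove k) (x i)) := by
          intro j
          congr 1
          ext i k
          simp [A]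
        have hterm : ∀ j : Fin (m + 1), (-1) ^ ((Fin.last m : Fin (m+1)) + j : ℕ) *
            (A z) (Fin.last m) j *
            Matrix.det ((A z).submatrix (Fin.last m).succAbove j.succAbove) =
            δ * (c j * f j z) := by
          intro j
          rw [hminor]
          simp only [c, A, Matrix.of_apply, Fin.snoc_last]
          field_simp
        rw [sum_congr rfl fun j _ => hterm j, ← mul_sum, Fin.sum_univ_castSucc, sum_filter,
          Fin.sum_univ_castSucc]
        simp only [lt_self_iff_false, if_false, add_zero, Fin.castSucc_lt_last, if_true]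
        have hlast : c (Fin.last m) = 1 := by
          simp only [c]
          have : Matrix.det (Matrix.of fun (i : Fin m) (k : Fin m) =>
              f ((Fin.last m).succAbove k) (x i)) = δ := by
            rw [hδ]; congr 1; ext i k; simp
          rw [this]
          have h2 : ((-1 : ℂ)) ^ ((Fin.last m : Fin (m+1)) + (Fin.last m : Fin (m+1)) : ℕ) = 1 := by
            simp [← two_mul]
          rw [h2, one_mul, div_self hδ0]
        rw [hlast]
        ring
      rw [show Matrix.det (Matrix.of fun i j => f j (Fin.snoc (α := fun _ => X) x z i)) =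
        Matrix.det (A z) from rfl, hdet, norm_mul, Fin.prod_univ_castSucc]
      have := hY (Fin.last m)
      gcongr

/-- the same over a finite linear order -/
lemma exists_det_ge {ι : Type*} [Fintype ι] [LinearOrder ι] {X : Type*} (K : Set X)
    (f : ι → X → ℂ) (Y : ι → ℝ) (hY : ∀ i, 0 < Y i)
    (h : ∀ i (c : ι → ℂ), ∃ x ∈ K, Y i ≤ ‖f i x + ∑ j ∈ univ.filter (· < i), c j * f j x‖) :
    ∃ x : ι → X, (∀ i, x i ∈ K) ∧
      ∏ i, Y i ≤ ‖Matrix.det (Matrix.of fun i j => f j (x i))‖ := by
  classical
  let e : Fin (Fintype.card ι) ≃o ι := Fintype.orderIsoFinOfCardEq ι rfl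
  obtain ⟨x, hxK, hx⟩ := exists_det_ge_fin K (Fintype.card ι) (fun i => f (e i))
    (fun i => Y (e i)) (fun i => hY _) (by
      intro i c
      obtain ⟨x, hxK, hx⟩ := h (e i) (fun j => c (e.symm j))
      refine ⟨x, hxK, hx.trans (le_of_eq ?_)⟩
      congr 2
      rw [sum_filter, sum_filter]
      refine (Fintype.sum_equiv e.toEquiv _ _ fun j => ?_).symm
      simp)
  refine ⟨fun i => x (e.symm i), fun i => hxK _, ?_⟩
  have h1 : ∏ i, Y i = ∏ i, Y (e i) := (Fintype.prod_equiv e.toEquiv _ _ fun j => rfl).symm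
  have h2 : Matrix.det (Matrix.of fun i j : ι => f j (x (e.symm i))) =
      Matrix.det (Matrix.of fun i j : Fin (Fintype.card ι) => f (e j) (x i)) := by
    rw [← Matrix.det_submatrix_equiv_self e.toEquiv
      (Matrix.of fun i j : ι => f j (x (e.symm i)))]
    congr 1
    ext i j
    simp
  rw [h1, h2]
  exact hx

end

end Pool.Agent.La9f24d
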