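import Pool.Agent.Lib.MP_a9f24d_an.Lagr

set_option autoImplicit false

namespace Pool.Agent.La9f24d

open Finset MeasureTheory Filter Topology

section

variable {n : ℕ} {K : Set (Fin n → ℂ)} {V : (Fin n → ℂ) → ℝ}

lemma ell_pos (hn : 0 < n) {k : ℕ} (hk : 0 < k) : 0 < ell n k := by
  rw [ell_eq]
  have h1 := Lc_pos hn
  have h2 : (0 : ℝ) < NN n k := by exact_mod_cast NN_pos n k
  have h3 : (0 : ℝ) < k := by exact_mod_cast hk
  positivity

/-- the Bernstein-Markov property, in the form of the frozen statement -/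
def BM (K : Set (Fin n → ℂ)) (ν : Measure (Fin n → ℂ)) : Prop :=
  ∀ ε : ℝ, 0 < ε → ∃ C : ℝ, ∀ (k : ℕ) (p : MvPolynomial (Fin n) ℂ), p.totalDegree ≤ k →
    ∀ x ∈ K, ‖MvPolynomial.eval x p‖ ^ 2 ≤
      C * (1 + ε) ^ (2 * k) * ∫ y, ‖MvPolynomial.eval y p‖ ^ 2 ∂ν

theorem Reg.dir1 (hR : Reg K V) (hn : 0 < n) (ν : Measure (Fin n → ℂ)) [IsFiniteMeasure ν]
    (hν : ν Kᶜ = 0) (hBM : BM K ν) :
    (∀ k, 0 < ZZ ν k) ∧
    Tendsto (fun k : ℕ => Real.log (ZZ ν k) / (2 * ell n k) - Real.log (VV K k) / ell n k)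
      atTop (𝓝 0) := by
  have hL := Lc_pos hn
  have hN : ∀ k, (0 : ℝ) < NN n k := fun k => by exact_mod_cast NN_pos n k
  have key : ∀ ε : ℝ, 0 < ε → ∃ C' : ℝ, 1 ≤ C' ∧ ∀ k,
      VV K k ^ 2 ≤ (C' * (1 + ε) ^ (2 * k)) ^ (NN n k) * ZZ ν k := by
    intro ε hε
    obtain ⟨C, hC⟩ := hBM ε hε
    refine ⟨max C 1, le_max_right _ _, fun k => ?_⟩
    have hmax0 : (0 : ℝ) ≤ max C 1 := zero_le_one.trans (le_max_right _ _)
    refine VV_le_ZZ ν hR hν (by positivity) fun p hp x hx => (hC k p hp x hx).trans ?_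
    have h0 : 0 ≤ ∫ y, ‖MvPolynomial.eval y p‖ ^ 2 ∂ν := integral_nonneg fun _ => by positivity
    gcongr
    exact le_max_left _ _
  have hZ : ∀ k, 0 < ZZ ν k := by
    intro k
    obtain ⟨C', hC'1, hC'⟩ := key 1 one_pos
    have h1 := hC' k
    have h2 := hR.VV_pos k
    rcases (ZZ_nonneg ν k).lt_or_eq with h | h
    · exact h
    · rw [← h, mul_zero] at h1
      have : 0 < VV K k ^ 2 := by positivity
      linarith
  refine ⟨hZ, ?_⟩
  rw [Metric.tendsto_atTop]
  intro η hη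
  set m1 := max (mass ν) 1 with hm1
  have hm1' : 1 ≤ m1 := le_max_right _ _
  set ε := Real.exp (Lc n * η / 2) - 1 with hε
  have hε0 : 0 < ε := by
    have : 1 < Real.exp (Lc n * η / 2) := by
      rw [Real.one_lt_exp_iff]; positivity
    linarith
  have hεl : Real.log (1 + ε) = Lc n * η / 2 := by
    rw [hε]; ring_nf; rw [Real.log_exp]
  obtain ⟨C', hC'1, hC'⟩ := key ε hε0
  have hC'0 : 0 < C' := one_pos.trans_le hC'1
  have htend : Tendsto (fun k : ℕ => (Real.log m1 + Real.log C') / (2 * Lc n) / (k : ℝ)) atTop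
      (𝓝 0) := tendsto_const_div_atTop_nhds_zero_nat _
  obtain ⟨k0, hk0⟩ := Filter.eventually_atTop.mp
    ((htend.eventually (gt_mem_nhds (show (0 : ℝ) < η / 2 by positivity))).and
      (eventually_gt_atTop 0))
  refine ⟨k0, fun k hk => ?_⟩
  obtain ⟨hk1, hk2⟩ := hk0 k hk
  have hk' : (0 : ℝ) < k := by exact_mod_cast hk2
  have hell := ell_pos hn hk2
  have hVk := hR.VV_pos k
  have hZk := hZ k
  -- upper bound
  have hup : Real.log (ZZ ν k) ≤ 2 * Real.log (VV K k) + NN n k * Real.log m1 := by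
    have h1 : ZZ ν k ≤ VV K k ^ 2 * m1 ^ (NN n k) := by
      refine (ZZ_le ν hR hν k).trans ?_
      have : 0 ≤ mass ν := ENNReal.toReal_nonneg
      have h2 : mass ν ≤ m1 := le_max_left _ _
      gcongr
    have h2 := Real.log_le_log hZk h1
    have hm0 : 0 < m1 := one_pos.trans_le hm1'
    rw [Real.log_mul (by positivity) (by positivity), Real.log_pow, Real.log_pow] at h2
    exact_mod_cast h2
  have hlow : 2 * Real.log (VV K k) ≤ NN n k * (Real.log C' + 2 * k * (Lc n * η / 2)) +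
      Real.log (ZZ ν k) := by
    have h2 := Real.log_le_log (by positivity) (hC' k)
    rw [Real.log_mul (by positivity) hZk.ne', Real.log_pow, Real.log_pow, Real.log_mul
      hC'0.ne' (by positivity), Real.log_pow, hεl] at h2
    push_cast at h2
    linarith
  have hell2 : ell n k = Lc n * k * NN n k := ell_eq n k
  rw [Real.dist_eq, sub_zero]
  have hNk := hN k
  have hlogm : 0 ≤ Real.log m1 := Real.log_nonneg hm1'
  have hlogC : 0 ≤ Real.log C' := Real.log_nonneg hC'1
  rw [div_div, div_lt_iff₀ (by positivity)] at hk1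
  have hk3 : Real.log m1 * NN n k + Real.log C' * NN n k < η * ell n k := by
    rw [hell2]
    nlinarith
  have hdiff : Real.log (ZZ ν k) / (2 * ell n k) - Real.log (VV K k) / ell n k =
      (Real.log (ZZ ν k) - 2 * Real.log (VV K k)) / (2 * ell n k) := by
    field_simp
  rw [hdiff, abs_lt]
  constructor
  · rw [lt_div_iff₀ (by positivity)]
    have h5 : NN n k * (Real.log C' + 2 * k * (Lc n * η / 2)) =
        NN n k * Real.log C' + η * ell n k := by rw [hell2]; ring
    rw [h5] at hlow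
    nlinarith [mul_nonneg hlogm hNk.le]
  · rw [div_lt_iff₀ (by positivity)]
    nlinarith [mul_nonneg hlogC hNk.le]

end

end Pool.Agent.La9f24d
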