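import Pool.Agent.Lib.MP_a9f24d_an.Dir

set_option autoImplicit false

namespace Pool.Agent.La9f24d

open Finset MeasureTheory Filter Topology

section

variable {n : ℕ} {K : Set (Fin n → ℂ)} {V : (Fin n → ℂ) → ℝ}

lemma NN_mono {r m : ℕ} (h : r ≤ m) : NN n r ≤ NN n m := by
  refine Fintype.card_le_of_injective
    (fun b : Idx n r => ofEx (ex b) ((ex_sum_le b).trans h)) fun b b' hbb => ?_
  apply ex_injective
  have := congrArg ex hbb
  simpa [ex_ofEx] using this

/-- The growth estimate: if BM fails then along infinitely many `m` the Vandermonde integral is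
exponentially smaller than the maximum. -/
theorem Reg.dir2_aux (hR : Reg K V) (hn : 0 < n) (ν : Measure (Fin n → ℂ)) [IsFiniteMeasure ν]
    (hν : ν Kᶜ = 0) (hBM : ¬ BM K ν) :
    ∃ κ : ℝ, 0 < κ ∧ ∀ k1 : ℕ, ∃ m : ℕ, k1 ≤ m ∧ (0 < ZZ ν m →
      Real.log (ZZ ν m) / (2 * ell n m) - Real.log (VV K m) / ell n m ≤
        (3 * (Real.log (NN n m) / m) + Real.log (max (mass ν) 1) / m) / (2 * Lc n) - κ) := by
  have hL := Lc_pos hn
  have hN : ∀ k, (0 : ℝ) < NN n k := fun k => by exact_mod_cast NN_pos n k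
  have hn' : (0 : ℝ) < n := by exact_mod_cast hn
  unfold BM at hBM
  push Not at hBM
  obtain ⟨ε, hε, hbad⟩ := hBM
  set q := 1 + ε with hq
  have hq1 : 1 < q := by linarith
  have hq0 : 0 < q := by linarith
  set c := Real.log q with hc
  have hc0 : 0 < c := Real.log_pos hq1
  obtain ⟨s, hs, hsV⟩ := hR.exists_s (show (0 : ℝ) < c / 8 by positivity)
  set S := Real.log (1 + 1 / s) with hS
  have hS1 : 1 < 1 + 1 / s := by
    have : 0 < 1 / s := by positivity
    linarith
  have hS0 : 0 < S := Real.log_pos hS1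
  set δ := min 1 (c / (4 * S)) with hδ
  have hδ0 : 0 < δ := lt_min one_pos (by positivity)
  have hδ1 : δ ≤ 1 := min_le_left _ _
  have hδS : δ * S ≤ c / 4 := by
    have h1 : δ ≤ c / (4 * S) := min_le_right _ _
    calc δ * S ≤ c / (4 * S) * S := by gcongr
      _ = c / 4 := by field_simp
  set ρ := (δ / (6 * n)) ^ n with hρ
  have hρ0 : 0 < ρ := by positivity
  refine ⟨c * ρ / (4 * Lc n), by positivity, fun k1' => ?_⟩
  -- choose the bad polynomial
  set k1 := max k1' (max 1 (⌈2 / δ⌉₊)) with hk1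
  obtain ⟨k', p, hp, x, hx, hpx⟩ := hbad (q ^ (2 * k1))
  set k := k1 + k' with hk
  have hk1k : k1 ≤ k := Nat.le_add_right _ _
  have hk'k : k' ≤ k := Nat.le_add_left _ _
  have hk1' : 1 ≤ k := le_trans (le_trans (le_max_left _ _) (le_max_right _ _)) hk1k
  have hkδ : 2 / δ ≤ k := by
    have h1 : ⌈2 / δ⌉₊ ≤ k := le_trans (le_trans (le_max_right _ _) (le_max_right _ _)) hk1k
    exact (Nat.le_ceil _).trans (by exact_mod_cast h1)
  have hkpos : (0 : ℝ) < k := by exact_mod_cast hk1'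
  set I := ∫ y, ‖MvPolynomial.eval y p‖ ^ 2 ∂ν with hI
  have hI0 : 0 ≤ I := integral_nonneg fun _ => by positivity
  have hpx' : q ^ (2 * k) * I < ‖MvPolynomial.eval x p‖ ^ 2 := by
    have h1 : q ^ (2 * k) = q ^ (2 * k1) * q ^ (2 * k') := by rw [← pow_add]; congr 1; omega
    rw [h1]; exact hpx
  have hp0 : p ≠ 0 := by
    rintro rfl
    simp only [map_zero, norm_zero] at hpx'
    have : 0 ≤ q ^ (2 * k) * I := by positivity
    rw [zero_pow two_ne_zero] at hpx'
    linarith
  have hpk : p.totalDegree ≤ k := hp.trans hk'k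
  -- the degree of the multiplier
  set r := ⌊δ * k⌋₊ with hr
  have hr1 : (r : ℝ) ≤ δ * k := Nat.floor_le (by positivity)
  have hr2 : δ * k / 2 ≤ r := by
    have h1 : δ * k < r + 1 := Nat.lt_floor_add_one _
    have h2 : 2 ≤ δ * k := by rw [div_le_iff₀ hδ0] at hkδ; linarith
    linarith
  have hrk : (r : ℝ) ≤ k := hr1.trans (by nlinarith)
  have hrk' : r ≤ k := by exact_mod_cast hrk
  set m := k + r with hm
  have hmk : (m : ℝ) = k + r := by rw [hm]; push_cast; rfl
  have hm0 : 0 < m := by omega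
  have hmpos : (0 : ℝ) < m := by exact_mod_cast hm0
  refine ⟨m, le_trans (le_trans (le_max_left _ _) hk1k) (Nat.le_add_right _ _), fun hZ => ?_⟩
  -- smallness of the integrals
  have hsmall : ∀ g : MvPolynomial (Fin n) ℂ, g.totalDegree ≤ r → ∀ M : ℝ,
      (∀ x ∈ K, ‖MvPolynomial.eval x (p * g)‖ ≤ M) →
      ∫ y, ‖MvPolynomial.eval y (p * g)‖ ^ 2 ∂ν ≤ Real.exp (-(c * k)) * M ^ 2 := by
    intro g hg M hM
    obtain ⟨z₁, hz₁, hz₁m⟩ := hR.exists_max g
    have hM0 : 0 ≤ M := (norm_nonneg _).trans (hM x hx)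
    have h1 : ∫ y, ‖MvPolynomial.eval y (p * g)‖ ^ 2 ∂ν ≤
        ∫ y, ‖MvPolynomial.eval z₁ g‖ ^ 2 * ‖MvPolynomial.eval y p‖ ^ 2 ∂ν := by
      refine integral_mono_ae (integrable_eval ν hR hν _)
        ((integrable_eval ν hR hν p).const_mul _) ?_
      filter_upwards [ae_mem ν hν] with y hy
      rw [map_mul, norm_mul, mul_pow, mul_comm]
      have := hz₁m y hy
      gcongr
    rw [integral_const_mul] at h1
    have h2 := hR.mul_ge hs hsV hpk hg hM hx hz₁
    -- square
    have h3 : (‖MvPolynomial.eval x p‖ * ‖MvPolynomial.eval z₁ g‖) ^ 2 ≤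
        ((1 + 1 / s) ^ r * (M * Real.exp ((k + r : ℕ) * (c / 8)))) ^ 2 := by gcongr
    have h4 : ((1 + 1 / s) ^ r * (M * Real.exp ((k + r : ℕ) * (c / 8)))) ^ 2 ≤
        Real.exp (c * k) * M ^ 2 := by
      have h5 : (1 + 1 / s) ^ r = Real.exp (r * S) := by
        rw [mul_comm, Real.exp_mul, hS, Real.exp_log (by linarith), Real.rpow_natCast]
      rw [h5, mul_pow, mul_pow, ← Real.exp_nat_mul, ← Real.exp_nat_mul]
      have h6 : Real.exp ((2 : ℕ) * (r * S)) * (M ^ 2 * Real.exp ((2 : ℕ) * ((k + r : ℕ) * (c / 8))))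
          = Real.exp ((2 : ℕ) * (r * S) + (2 : ℕ) * ((k + r : ℕ) * (c / 8))) * M ^ 2 := by
        rw [Real.exp_add]; ring
      rw [h6]
      gcongr
      push_cast
      have h7 : (r : ℝ) * S ≤ c * k / 4 := by
        calc (r : ℝ) * S ≤ δ * k * S := by gcongr
          _ = (δ * S) * k := by ring
          _ ≤ c / 4 * k := by gcongr
          _ = c * k / 4 := by ring
      have h8 : c * r ≤ c * k := by gcongr
      nlinarith
    have h9 : q ^ (2 * k) = Real.exp (2 * (c * k)) := by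
      rw [hc, ← Real.rpow_natCast, Real.rpow_def_of_pos hq0]
      congr 1; push_cast; ring
    have h10 : Real.exp (2 * (c * k)) * (‖MvPolynomial.eval z₁ g‖ ^ 2 * I) ≤
        Real.exp (c * k) * M ^ 2 := by
      calc Real.exp (2 * (c * k)) * (‖MvPolynomial.eval z₁ g‖ ^ 2 * I)
          = (q ^ (2 * k) * I) * ‖MvPolynomial.eval z₁ g‖ ^ 2 := by rw [h9]; ring
        _ ≤ ‖MvPolynomial.eval x p‖ ^ 2 * ‖MvPolynomial.eval z₁ g‖ ^ 2 := by gcongr
        _ = (‖MvPolynomial.eval x p‖ * ‖MvPolynomial.eval z₁ g‖) ^ 2 := by ring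
        _ ≤ _ := h3.trans h4
    have h11 : ‖MvPolynomial.eval z₁ g‖ ^ 2 * I ≤ Real.exp (-(c * k)) * M ^ 2 := by
      have h12 : Real.exp (c * k) * M ^ 2 =
          Real.exp (2 * (c * k)) * (Real.exp (-(c * k)) * M ^ 2) := by
        rw [← mul_assoc, ← Real.exp_add]; congr 2; ring
      rw [h12] at h10
      exact le_of_mul_le_mul_left h10 (Real.exp_pos _)
    exact h1.trans h11
  have hZle := ZZ_le_of_bad hR ν hν hpk hp0 (Real.exp_pos _).le hsmall
  rw [← hm] at hZle
  -- take logarithms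
  set m1 := max (mass ν) 1 with hm1
  have hm11 : 1 ≤ m1 := le_max_right _ _
  have hm10 : 0 < m1 := one_pos.trans_le hm11
  have hNm := hN m
  have hNr := hN r
  have hVm := hR.VV_pos m
  have hNm1 : (1 : ℝ) ≤ NN n m := by exact_mod_cast NN_pos n m
  have hfac : (0 : ℝ) < ((NN n m).factorial : ℝ) := by exact_mod_cast Nat.factorial_pos _
  have hexp := Real.exp_pos (-(c * k))
  have hlog := Real.log_le_log hZ hZle
  have hNrm' : NN n r ≤ NN n m := NN_mono (Nat.le_add_left _ _)
  have hNrm : (NN n r : ℝ) ≤ NN n m := by exact_mod_cast hNrm'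
  rw [Real.log_mul (by positivity) (by positivity), Real.log_mul (by positivity) (by positivity),
    Real.log_mul (by positivity) (by positivity), Real.log_pow, Real.log_pow, Real.log_pow,
    Real.log_pow, Real.log_mul (by positivity) (by positivity),
    Real.log_mul (by positivity) (by positivity), Real.log_exp, Nat.cast_sub hNrm'] at hlog
  have hρN : ρ * NN n m ≤ NN n r := by
    have h1 : ((r : ℝ) / n) ^ n ≤ NN n r := by
      have h2 : (r : ℝ) / n ≤ ((r / n + 1 : ℕ) : ℝ) := by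
        rw [div_le_iff₀ hn']
        have h3 : r < (r / n + 1) * n := by
          have := Nat.lt_div_mul_add hn (a := r)
          nlinarith
        exact_mod_cast h3.le
      calc ((r : ℝ) / n) ^ n ≤ ((r / n + 1 : ℕ) : ℝ) ^ n := by gcongr
        _ ≤ NN n r := by exact_mod_cast le_NN n r
    have h4 : (NN n m : ℝ) ≤ (3 * k : ℝ) ^ n := by
      have h5 : (NN n m : ℝ) ≤ ((m : ℝ) + 1) ^ n := by exact_mod_cast NN_le n m
      refine h5.trans ?_
      have h6 : (1 : ℝ) ≤ k := by exact_mod_cast hk1'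
      have h7 : (m : ℝ) + 1 ≤ 3 * k := by rw [hmk]; linarith
      gcongr
    calc ρ * NN n m ≤ ρ * (3 * k : ℝ) ^ n := by gcongr
      _ = (δ * k / 2 / n) ^ n := by
          rw [hρ, ← mul_pow]; congr 1; field_simp; ring
      _ ≤ ((r : ℝ) / n) ^ n := by gcongr
      _ ≤ _ := h1
  have hfl := log_factorial_le (NN n m)
  have hlm1 : 0 ≤ Real.log m1 := Real.log_nonneg hm11
  have hlN : 0 ≤ Real.log (NN n m) := Real.log_nonneg hNm1
  have hck : c * m / 2 * (ρ * NN n m) ≤ c * k * NN n r := by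
    have h1 : c * m / 2 ≤ c * k := by rw [hmk]; nlinarith
    have h2 : 0 ≤ c * m / 2 := by positivity
    exact mul_le_mul h1 hρN (by positivity) (by positivity)
  have hfin : Real.log (ZZ ν m) - 2 * Real.log (VV K m) ≤
      (NN n m : ℝ) * (3 * Real.log (NN n m) + Real.log m1) - c * m / 2 * (ρ * NN n m) := by
    push_cast at hlog
    have h3 : (NN n r : ℝ) * Real.log m1 ≥ 0 := by positivity
    nlinarith
  have hellm := ell_pos hn hm0
  have hell2 : ell n m = Lc n * m * NN n m := ell_eq n m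
  have hdiff : Real.log (ZZ ν m) / (2 * ell n m) - Real.log (VV K m) / ell n m =
      (Real.log (ZZ ν m) - 2 * Real.log (VV K m)) / (2 * ell n m) := by
    field_simp
  rw [hdiff, div_le_iff₀ (by positivity)]
  refine hfin.trans (le_of_eq ?_)
  rw [hell2]
  field_simp
  ring

end

end Pool.Agent.La9f24d
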