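import Pool.Agent.Lib.MP_a9f24d_an.Dir2

set_option autoImplicit false

namespace Pool.Agent.La9f24d

open Finset MeasureTheory Filter Topology

section

variable {n : ℕ} {K : Set (Fin n → ℂ)} {V : (Fin n → ℂ) → ℝ}

lemma Reg.tendsto_VV (hR : Reg K V) {Λ : ℝ}
    (hΛ : Tendsto (fun k : ℕ => Real.log (VV K k) / ell n k) atTop (𝓝 Λ)) :
    Tendsto (fun k : ℕ => VV K k ^ ((1 : ℝ) / ell n k)) atTop (𝓝 (Real.exp Λ)) := by
  refine ((Real.continuous_exp.tendsto Λ).comp hΛ).congr fun k => ?_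
  rw [Function.comp_apply, Real.rpow_def_of_pos (hR.VV_pos k)]
  congr 1
  ring

theorem Reg.main (hR : Reg K V) (hn : 0 < n) (ν : Measure (Fin n → ℂ)) [IsFiniteMeasure ν]
    (hν : ν Kᶜ = 0) :
    BM K ν ↔ ∃ d : ℝ, Tendsto (fun k : ℕ => VV K k ^ ((1 : ℝ) / ell n k)) atTop (𝓝 d) ∧
      Tendsto (fun k : ℕ => ZZ ν k ^ ((1 : ℝ) / (2 * ell n k))) atTop (𝓝 d) := by
  obtain ⟨Λ, hΛ⟩ := hR.tendsto_log_VV hn
  have hV := hR.tendsto_VV hΛ
  constructor
  · intro hBM
    obtain ⟨hZ, hlim⟩ := hR.dir1 hn ν hν hBM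
    refine ⟨Real.exp Λ, hV, ?_⟩
    have h1 := hlim.add hΛ
    rw [zero_add] at h1
    refine ((Real.continuous_exp.tendsto Λ).comp h1).congr fun k => ?_
    rw [Function.comp_apply, Real.rpow_def_of_pos (hZ k)]
    congr 1
    ring
  · rintro ⟨d, hd1, hd2⟩
    have hd : d = Real.exp Λ := tendsto_nhds_unique hd1 hV
    subst hd
    by_contra hBM
    obtain ⟨κ, hκ, hbad⟩ := hR.dir2_aux hn ν hν hBM
    -- eventually positive
    have hZpos : ∀ᶠ k : ℕ in atTop, 0 < ZZ ν k := by
      have h1 := hd2.eventually (lt_mem_nhds (Real.exp_pos Λ))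
      filter_upwards [h1, eventually_gt_atTop 0] with k hk hk0
      rcases (ZZ_nonneg ν k).lt_or_eq with h | h
      · exact h
      · rw [← h, Real.zero_rpow] at hk
        · exact absurd hk (lt_irrefl _)
        · have := ell_pos hn hk0
          positivity
    have hlogZ : Tendsto (fun k : ℕ => Real.log (ZZ ν k) / (2 * ell n k)) atTop (𝓝 Λ) := by
      have h1 := (Real.continuousAt_log (Real.exp_pos Λ).ne').tendsto.comp hd2
      rw [Real.log_exp] at h1
      refine h1.congr' ?_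
      filter_upwards [hZpos] with k hk
      rw [Function.comp_apply, Real.log_rpow hk]
      ring
    have hD : Tendsto (fun k : ℕ => Real.log (ZZ ν k) / (2 * ell n k) -
        Real.log (VV K k) / ell n k) atTop (𝓝 0) := by
      have := hlogZ.sub hΛ
      rwa [sub_self] at this
    have hE : Tendsto (fun k : ℕ => (3 * (Real.log (NN n k) / k) +
        Real.log (max (mass ν) 1) / k) / (2 * Lc n)) atTop (𝓝 0) := by
      have h1 := (((tendsto_log_NN_div n).const_mul 3).add
        (tendsto_const_div_atTop_nhds_zero_nat (Real.log (max (mass ν) 1)))).div_const (2 * Lc n)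
      simpa using h1
    have h1 := hD.eventually (lt_mem_nhds (show -(κ / 2) < 0 by linarith))
    have h2 := hE.eventually (gt_mem_nhds (show 0 < κ / 2 by linarith))
    obtain ⟨k1, hk1⟩ := Filter.eventually_atTop.mp ((h1.and h2).and hZpos)
    obtain ⟨m, hm, hm'⟩ := hbad k1
    obtain ⟨⟨h3, h4⟩, h5⟩ := hk1 m hm
    have h6 := hm' h5
    linarith

end

end Pool.Agent.La9f24d
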