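import Pool.Agent.Lib.MP_a9f24d_an.Meas

set_option autoImplicit false

namespace Pool.Agent.La9f24d

open Finset MeasureTheory Filter Topology

section

variable {n : ℕ} {K : Set (Fin n → ℂ)} {V : (Fin n → ℂ) → ℝ}

/-- a polynomial of degree at most `m` vanishing at nodes with nonzero Vandermonde determinant
vanishes -/
lemma eq_zero_of_nodes {m : ℕ} {x : Idx n m → (Fin n → ℂ)} (hx : dt x ≠ 0)
    {q : MvPolynomial (Fin n) ℂ} (hq : q.totalDegree ≤ m)
    (h : ∀ a, MvPolynomial.eval (x a) q = 0) : q = 0 := by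
  apply eq_zero_of_coeff hq
  have h1 : Matrix.mulVec (Matrix.of (fun a b : Idx n m => ∏ i, x a i ^ ((b.1 i : ℕ))))
      (fun b => MvPolynomial.coeff (ex b) q) = 0 := by
    ext a
    simp only [Matrix.mulVec, dotProduct, Matrix.of_apply, Pi.zero_apply]
    rw [← h a, eval_eq_sum hq]
    refine sum_congr rfl fun b _ => ?_
    rw [mul_comm]; rfl
  have h2 := Matrix.eq_zero_of_mulVec_eq_zero hx h1
  intro b
  exact congrFun h2 b

/-- Lagrange interpolation formula -/
lemma eval_eq_lagrange {m : ℕ} {x : Idx n m → (Fin n → ℂ)} (hx : dt x ≠ 0)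
    {q : MvPolynomial (Fin n) ℂ} (hq : q.totalDegree ≤ m) (z : Fin n → ℂ) :
    MvPolynomial.eval z q =
      ∑ a, MvPolynomial.eval (x a) q * (dt (Function.update x a z) / dt x) := by
  choose l hl hle using exists_poly_update (n := n) x
  -- the interpolating polynomial
  set L : MvPolynomial (Fin n) ℂ :=
    ∑ a, MvPolynomial.C (MvPolynomial.eval (x a) q / dt x) * l a with hL
  have hLd : L.totalDegree ≤ m := by
    refine MvPolynomial.totalDegree_finsetSum_le fun a _ => ?_
    refine (MvPolynomial.totalDegree_mul _ _).trans ?_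
    rw [MvPolynomial.totalDegree_C, zero_add]
    exact hl a
  have hLe : ∀ z, MvPolynomial.eval z L =
      ∑ a, MvPolynomial.eval (x a) q * (dt (Function.update x a z) / dt x) := by
    intro z
    rw [hL, map_sum]
    refine sum_congr rfl fun a _ => ?_
    rw [map_mul, MvPolynomial.eval_C, ← hle]
    ring
  have hnode : ∀ a', MvPolynomial.eval (x a') (q - L) = 0 := by
    intro a'
    rw [map_sub, hLe, sum_eq_single a']
    · rw [Function.update_eq_self, div_self hx, mul_one, sub_self]
    · intro a _ ha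
      have : dt (Function.update x a (x a')) = 0 := by
        unfold dt
        refine Matrix.det_zero_of_row_eq ha ?_
        ext b
        simp only [Matrix.of_apply]
        rw [Function.update_self, Function.update_of_ne ha.symm]
      rw [this]; simp
    · intro h; exact absurd (mem_univ _) h
  have h0 : q - L = 0 := eq_zero_of_nodes hx ((MvPolynomial.totalDegree_sub _ _).trans
    (max_le hq hLd)) hnode
  rw [← hLe z, ← sub_eq_zero, ← map_sub, h0, map_zero]

/-- existence of the interpolating polynomial -/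
lemma exists_interp {m : ℕ} {x : Idx n m → (Fin n → ℂ)} (hx : dt x ≠ 0) (u : Idx n m → ℂ) :
    ∃ q : MvPolynomial (Fin n) ℂ, q.totalDegree ≤ m ∧ ∀ a, MvPolynomial.eval (x a) q = u a := by
  set A : Matrix (Idx n m) (Idx n m) ℂ :=
    Matrix.of (fun a b : Idx n m => ∏ i, x a i ^ ((b.1 i : ℕ))) with hA
  have hdet : IsUnit A.det := isUnit_iff_ne_zero.mpr hx
  refine ⟨ofCoef (A⁻¹.mulVec u), totalDegree_ofCoef _, fun a => ?_⟩
  rw [eval_ofCoef]
  have h1 : A.mulVec (A⁻¹.mulVec u) = u := by
    rw [Matrix.mulVec_mulVec, Matrix.mul_nonsing_inv _ hdet, Matrix.one_mulVec]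
  have h2 := congrFun h1 a
  rw [← h2]
  simp only [Matrix.mulVec, dotProduct]
  refine sum_congr rfl fun b _ => ?_
  rw [mul_comm]; rfl

/-- at Fekete points the sup norm is at most the `ℓ¹` norm of the nodal values -/
lemma Reg.norm_le_sum (hR : Reg K V) {m : ℕ} {x : Idx n m → (Fin n → ℂ)} (hxK : ∀ a, x a ∈ K)
    (hx : ‖dt x‖ = VV K m) {q : MvPolynomial (Fin n) ℂ} (hq : q.totalDegree ≤ m)
    {z : Fin n → ℂ} (hz : z ∈ K) :
    ‖MvPolynomial.eval z q‖ ≤ ∑ a, ‖MvPolynomial.eval (x a) q‖ := by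
  classical
  have hV := hR.VV_pos m
  have hx0 : dt x ≠ 0 := by
    rw [← norm_pos_iff, hx]; exact hV
  rw [eval_eq_lagrange hx0 hq z]
  refine (norm_sum_le _ _).trans (sum_le_sum fun a _ => ?_)
  rw [norm_mul, norm_div, hx]
  have h1 : ‖dt (Function.update x a z)‖ ≤ VV K m := by
    refine hR.norm_dt_le_VV _ fun a' => ?_
    rw [Function.update_apply]
    split_ifs
    · exact hz
    · exact hxK a'
  have h2 : ‖dt (Function.update x a z)‖ / VV K m ≤ 1 := by
    rw [div_le_one hV]; exact h1
  calc ‖MvPolynomial.eval (x a) q‖ * (‖dt (Function.update x a z)‖ / VV K m)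
      ≤ ‖MvPolynomial.eval (x a) q‖ * 1 := by gcongr
    _ = _ := mul_one _

/-- The main upper bound for the Vandermonde integral when the polynomials `p g` with
`deg g ≤ r` are all small in `L²(ν)` compared with their sup norm on `K`. -/
theorem ZZ_le_of_bad (hR : Reg K V) (ν : Measure (Fin n → ℂ)) [IsFiniteMeasure ν]
    (hν : ν Kᶜ = 0) {k r : ℕ} {p : MvPolynomial (Fin n) ℂ} (hp : p.totalDegree ≤ k) (hp0 : p ≠ 0)
    {τ : ℝ} (hτ : 0 ≤ τ)
    (hbad : ∀ g : MvPolynomial (Fin n) ℂ, g.totalDegree ≤ r → ∀ M : ℝ,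
      (∀ x ∈ K, ‖MvPolynomial.eval x (p * g)‖ ≤ M) →
      ∫ y, ‖MvPolynomial.eval y (p * g)‖ ^ 2 ∂ν ≤ τ * M ^ 2) :
    ZZ ν (k + r) ≤ VV K (k + r) ^ 2 * (((NN n (k + r)).factorial : ℝ) ^ 2 *
      ((τ * NN n (k + r)) ^ (NN n r) *
        (max (mass ν) 1 * NN n (k + r)) ^ (NN n (k + r) - NN n r))) := by
  classical
  set m := k + r with hm
  obtain ⟨x, hxK, hx⟩ := hR.exists_fekete m
  have hV := hR.VV_pos m
  have hx0 : dt x ≠ 0 := by
    rw [← norm_pos_iff, hx]; exact hV
  -- the linear map
  let T : (Idx n r → ℂ) →ₗ[ℂ] EuclideanSpace ℂ (Idx n m) :=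
    { toFun := fun c => WithLp.toLp 2 fun a => MvPolynomial.eval (x a) p *
        MvPolynomial.eval (x a) (ofCoef c)
      map_add' := by
        intro c c'
        ext a
        simp only [PiLp.add_apply, eval_ofCoef, Pi.add_apply, add_mul, sum_add_distrib]
        ring
      map_smul' := by
        intro t c
        ext a
        simp only [PiLp.smul_apply, eval_ofCoef, Pi.smul_apply, smul_eq_mul, RingHom.id_apply]
        rw [mul_sum, mul_sum, mul_sum]
        refine sum_congr rfl fun b _ => ?_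
        ring }
  have hTa : ∀ c a, T c a = MvPolynomial.eval (x a) (p * ofCoef c) := by
    intro c a
    rw [map_mul]; rfl
  have hTinj : Function.Injective T := by
    rw [injective_iff_map_eq_zero]
    intro c hc
    have h1 : p * ofCoef c = 0 := by
      refine eq_zero_of_nodes hx0 ((MvPolynomial.totalDegree_mul _ _).trans
        (add_le_add hp (totalDegree_ofCoef c))) fun a => ?_
      rw [← hTa, hc]; rfl
    have h2 : ofCoef c = 0 := (mul_eq_zero.mp h1).resolve_left hp0
    ext b
    rw [← coeff_ofCoef c b, h2]; rfl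
  -- orthonormal basis of the range
  set W := LinearMap.range T with hW
  have hWdim : Module.finrank ℂ W = NN n r := by
    rw [hW, LinearMap.finrank_range_of_inj hTinj, Module.finrank_fintype_fun_eq_card]; rfl
  have hle : NN n r ≤ NN n m := by
    have h1 : Module.finrank ℂ W ≤ Module.finrank ℂ (EuclideanSpace ℂ (Idx n m)) :=
      Submodule.finrank_le W
    rw [hWdim, finrank_euclideanSpace] at h1
    exact h1
  let w := stdOrthonormalBasis ℂ W
  obtain ⟨e⟩ : Nonempty (Fin (Module.finrank ℂ W) ↪ Idx n m) := by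
    rw [Function.Embedding.nonempty_iff_card_le, Fintype.card_fin, hWdim]
    exact hle
  let v : Idx n m → EuclideanSpace ℂ (Idx n m) :=
    Function.extend e (fun j => (w j : EuclideanSpace ℂ (Idx n m))) 0
  have hv : ∀ j, v (e j) = (w j : EuclideanSpace ℂ (Idx n m)) := fun j =>
    e.injective.extend_apply _ _ j
  have hwo : Orthonormal ℂ (fun j => (w j : EuclideanSpace ℂ (Idx n m))) :=
    w.orthonormal.comp_linearIsometry W.subtypeₗᵢ
  have hvo : Orthonormal ℂ ((Set.range e).domRestrict v) := by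
    let e' : Fin (Module.finrank ℂ W) ≃ Set.range e := Equiv.ofInjective e e.injective
    have h1 : (fun j => (w j : EuclideanSpace ℂ (Idx n m))) = (Set.range e).domRestrict v ∘ e' := by
      ext1 j
      simp only [Function.comp, Set.domRestrict_apply, e', Equiv.ofInjective_apply]
      exact (hv j).symm
    have h2 : (Set.range e).domRestrict v = (fun j => (w j : EuclideanSpace ℂ (Idx n m))) ∘ e'.symm := by
      rw [h1]; ext1 j; simp
    rw [h2]
    exact hwo.comp _ e'.symm.injective
  obtain ⟨β, hβ⟩ := hvo.exists_orthonormalBasis_extension_of_card_eq (by simp)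
  have hβW : ∀ j, β (e j) ∈ W := by
    intro j
    rw [hβ (e j) ⟨j, rfl⟩, hv j]
    exact (w j).2
  -- the interpolating polynomials
  choose q hq hqe using fun b => exists_interp hx0 (fun a => β b a)
  have hN0 : (0 : ℝ) < NN n m := by exact_mod_cast NN_pos n m
  have hnormβ : ∀ b, ∑ a, ‖β b a‖ ^ 2 = 1 := by
    intro b
    rw [← EuclideanSpace.norm_sq_eq, β.norm_eq_one]; simp
  have hsup : ∀ b, ∀ z ∈ K, ‖MvPolynomial.eval z (q b)‖ ≤ ∑ a, ‖β b a‖ := by
    intro b z hz
    refine (hR.norm_le_sum hxK hx (hq b) hz).trans (le_of_eq ?_)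
    refine sum_congr rfl fun a _ => ?_
    rw [hqe]
  have hl1 : ∀ b, (∑ a, ‖β b a‖) ^ 2 ≤ NN n m := by
    intro b
    have h1 := sq_sum_le_card_mul_sum_sq (s := (univ : Finset (Idx n m))) (f := fun a => ‖β b a‖)
    rw [hnormβ b, mul_one, card_univ] at h1
    exact h1
  -- bounds for the integrals
  have hint1 : ∀ b, ∫ y, ‖MvPolynomial.eval y (q b)‖ ^ 2 ∂ν ≤ max (mass ν) 1 * NN n m := by
    intro b
    have h1 : ∫ y, ‖MvPolynomial.eval y (q b)‖ ^ 2 ∂ν ≤ ∫ _y, (NN n m : ℝ) ∂ν := by
      refine integral_mono_ae (integrable_eval ν hR hν (q b)) (integrable_const _) ?_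
      filter_upwards [ae_mem ν hν] with y hy
      calc ‖MvPolynomial.eval y (q b)‖ ^ 2 ≤ (∑ a, ‖β b a‖) ^ 2 := by
            have := hsup b y hy
            gcongr
        _ ≤ _ := hl1 b
    refine h1.trans ?_
    rw [integral_const, smul_eq_mul]
    have : ν.real Set.univ = mass ν := rfl
    rw [this]
    gcongr
    exact le_max_left _ _
  have hint2 : ∀ j, ∫ y, ‖MvPolynomial.eval y (q (e j))‖ ^ 2 ∂ν ≤ τ * NN n m := by
    intro j
    obtain ⟨c, hc⟩ := hβW j
    have h1 : q (e j) = p * ofCoef c := by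
      have h2 : (p * ofCoef c).totalDegree ≤ m := (MvPolynomial.totalDegree_mul _ _).trans
        (add_le_add hp (totalDegree_ofCoef c))
      have h3 : q (e j) - p * ofCoef c = 0 := by
        refine eq_zero_of_nodes hx0 ((MvPolynomial.totalDegree_sub _ _).trans
          (max_le (hq _) h2)) fun a => ?_
        rw [map_sub, hqe, ← hTa, hc, sub_self]
      exact sub_eq_zero.mp h3
    rw [h1]
    refine (hbad (ofCoef c) (totalDegree_ofCoef c) (∑ a, ‖β (e j) a‖) ?_).trans ?_
    · rw [← h1]; exact hsup (e j)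
    · have := hl1 (e j)
      gcongr
  have hint0 : ∀ b, 0 ≤ ∫ y, ‖MvPolynomial.eval y (q b)‖ ^ 2 ∂ν :=
    fun b => integral_nonneg fun _ => by positivity
  -- the product
  have hprod : ∏ b, ∫ y, ‖MvPolynomial.eval y (q b)‖ ^ 2 ∂ν ≤
      (τ * NN n m) ^ (NN n r) * (max (mass ν) 1 * NN n m) ^ (NN n m - NN n r) := by
    set s : Finset (Idx n m) := univ.map e with hs
    have hscard : s.card = NN n r := by
      rw [hs, card_map, card_univ, Fintype.card_fin, hWdim]
    have hsccard : sᶜ.card = NN n m - NN n r := by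
      rw [card_compl, hscard]; rfl
    rw [← prod_mul_prod_compl s]
    refine mul_le_mul ?_ ?_ (prod_nonneg fun b _ => hint0 b) (by positivity)
    · rw [← hscard, ← prod_const]
      refine prod_le_prod (fun b _ => hint0 b) fun b hb => ?_
      obtain ⟨j, -, rfl⟩ := mem_map.mp hb
      exact hint2 j
    · rw [← hsccard, ← prod_const]
      exact prod_le_prod (fun b _ => hint0 b) fun b _ => hint1 b
  -- the determinant
  set Q := (Matrix.of (fun b' b : Idx n m => MvPolynomial.coeff (ex b') (q b))) with hQ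
  have hdetU : ‖(Matrix.of (fun a b : Idx n m => β b a)).det‖ ^ 2 = 1 := by
    set U := (Matrix.of (fun a b : Idx n m => β b a)) with hU
    have h1 : U.conjTranspose * U = 1 := by
      ext b b'
      rw [Matrix.mul_apply]
      have h2 := orthonormal_iff_ite.mp β.orthonormal b b'
      rw [PiLp.inner_apply] at h2
      simp only [Matrix.conjTranspose_apply, hU, Matrix.of_apply, Matrix.one_apply]
      rw [← h2]
      refine sum_congr rfl fun a _ => ?_
      simp [mul_comm]
    have h3 := congrArg Matrix.det h1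
    rw [Matrix.det_mul, Matrix.det_conjTranspose, Matrix.det_one] at h3
    have h4 := congrArg norm h3
    rw [norm_mul, norm_star, norm_one] at h4
    rw [sq]; exact h4
  have hdetQ : ‖Q.det‖ ^ 2 * VV K m ^ 2 = 1 := by
    have h1 : (Matrix.of (fun a b : Idx n m => β b a)) =
        (Matrix.of (fun a b : Idx n m => ∏ i, x a i ^ ((b.1 i : ℕ)))) * Q := by
      ext a b
      rw [Matrix.mul_apply]
      simp only [Matrix.of_apply, hQ]
      rw [← hqe, eval_eq_sum (hq b)]
      refine sum_congr rfl fun b' _ => ?_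
      rw [mul_comm]; rfl
    have h2 : (Matrix.of (fun a b : Idx n m => β b a)).det = dt x * Q.det := by
      rw [h1, Matrix.det_mul]; rfl
    rw [h2, norm_mul, hx, mul_pow] at hdetU
    rw [mul_comm]; exact hdetU
  have hmain := ZZ_mul_le ν hR hν q hq
  rw [← hQ] at hmain
  calc ZZ ν m = ZZ ν m * (‖Q.det‖ ^ 2 * VV K m ^ 2) := by rw [hdetQ, mul_one]
    _ = (ZZ ν m * ‖Q.det‖ ^ 2) * VV K m ^ 2 := by ring
    _ ≤ (((NN n m).factorial : ℝ) ^ 2 * ∏ b, ∫ y, ‖MvPolynomial.eval y (q b)‖ ^ 2 ∂ν) *
        VV K m ^ 2 := by gcongr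
    _ ≤ (((NN n m).factorial : ℝ) ^ 2 * ((τ * NN n m) ^ (NN n r) *
        (max (mass ν) 1 * NN n m) ^ (NN n m - NN n r))) * VV K m ^ 2 := by gcongr
    _ = _ := by ring

end

end Pool.Agent.La9f24d
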