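import Mathlib

set_option autoImplicit false

namespace Pool.Agent.La9f24d

open Polynomial

section

/-- the reflected linear factor -/
noncomputable def refl (s : ℝ) (a : ℂ) : ℂ[X] :=
  if s ≤ ‖a‖ then X - C a else C (s : ℂ) - C (starRingEnd ℂ a / s) * X

lemma norm_refl_zero {s : ℝ} (hs : 0 < s) (a : ℂ) :
    ‖(refl s a).eval 0‖ = max ‖a‖ s := by
  unfold refl
  split_ifs with h
  · simp [max_eq_left h]
  · push Not at h
    simp [max_eq_right h.le, abs_of_pos hs]

lemma norm_refl_sphere {s : ℝ} (hs : 0 < s) (a : ℂ) {t : ℂ} (ht : ‖t‖ = s) :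
    ‖(refl s a).eval t‖ = ‖t - a‖ := by
  unfold refl
  split_ifs with h
  · simp
  · have hs' : (s : ℂ) ≠ 0 := by exact_mod_cast hs.ne'
    have h1 : (s : ℂ) * s = t * starRingEnd ℂ t := by
      rw [Complex.mul_conj, Complex.normSq_eq_norm_sq, ht]
      push_cast; ring
    have h2 : eval t (C (s : ℂ) - C (starRingEnd ℂ a / s) * X) =
        (t / s) * starRingEnd ℂ (t - a) * 1 + (s * s - t * starRingEnd ℂ t) / s := by
      simp only [eval_sub, eval_C, eval_mul, eval_X, map_sub]
      field_simp
      ring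
    have h3 : eval t (C (s : ℂ) - C (starRingEnd ℂ a / s) * X) =
        (t / s) * starRingEnd ℂ (t - a) := by
      rw [h2, h1]; ring
    rw [h3, norm_mul, norm_div, RCLike.norm_conj, ht, Complex.norm_real, Real.norm_of_nonneg hs.le,
      div_self hs.ne', one_mul]

/-- One variable comparison: a polynomial that is large at `0` times a polynomial of small degree
that is large at `1` is large somewhere on the circle of radius `s`. -/
theorem line_bound (P G : ℂ[X]) {r : ℕ} (hG : G.natDegree ≤ r) {s C' : ℝ} (hs : 0 < s)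
    (h : ∀ t : ℂ, ‖t‖ = s → ‖P.eval t * G.eval t‖ ≤ C') :
    ‖P.eval 0‖ * ‖G.eval 1‖ ≤ (1 + 1 / s) ^ r * C' := by
  have hC' : 0 ≤ C' := (norm_nonneg _).trans (h s (by simp [abs_of_pos hs]))
  have hsplit := IsAlgClosed.splits G
  set H : ℂ[X] := C G.leadingCoeff * (G.roots.map (refl s)).prod with hH
  have hHt : ∀ t, ‖H.eval t‖ = ‖G.leadingCoeff‖ * (G.roots.map fun a => ‖(refl s a).eval t‖).prod := by
    intro t
    rw [hH, eval_mul, eval_C, norm_mul, eval_multiset_prod, Multiset.map_map]
    congr 1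
    induction G.roots using Multiset.induction_on with
    | empty => simp
    | cons a m ih => rw [Multiset.map_cons, Multiset.prod_cons, norm_mul, ih]; simp
  have hGt : ∀ t, ‖G.eval t‖ = ‖G.leadingCoeff‖ * (G.roots.map fun a => ‖t - a‖).prod := by
    intro t
    rw [hsplit.eval_eq_prod_roots, norm_mul]
    congr 1
    induction G.roots using Multiset.induction_on with
    | empty => simp
    | cons a m ih => simp [ih]
  have hsph : ∀ t : ℂ, ‖t‖ = s → ‖H.eval t‖ = ‖G.eval t‖ := by
    intro t ht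
    rw [hHt, hGt]
    simp only [norm_refl_sphere hs _ ht]
  -- maximum modulus principle
  have hmax : ‖P.eval 0 * H.eval 0‖ ≤ C' := by
    have hd : Differentiable ℂ fun t => P.eval t * H.eval t :=
      P.differentiable.mul H.differentiable
    refine Complex.norm_le_of_forall_mem_frontier_norm_le (U := Metric.ball (0 : ℂ) s)
      (f := fun t => P.eval t * H.eval t) Metric.isBounded_ball hd.diffContOnCl ?_ ?_
    · intro t ht
      rw [frontier_ball _ hs.ne', mem_sphere_zero_iff_norm] at ht
      rw [norm_mul, hsph t ht, ← norm_mul]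
      exact h t ht
    · rw [closure_ball _ hs.ne']
      simp [hs.le]
  -- compare `G(1)` and `H(0)`
  have hcomp : ‖G.eval 1‖ ≤ (1 + 1 / s) ^ r * ‖H.eval 0‖ := by
    rw [hGt, hHt]
    have h1 : (G.roots.map fun a => ‖1 - a‖).prod ≤
        (G.roots.map fun a => (1 + 1 / s) * ‖(refl s a).eval 0‖).prod := by
      refine Multiset.prod_map_le_prod_map₀ _ _ (fun a _ => norm_nonneg _) fun a _ => ?_
      rw [norm_refl_zero hs]
      have h2 : ‖1 - a‖ ≤ 1 + ‖a‖ := by simpa using norm_sub_le (1 : ℂ) a
      have h3 : ‖a‖ ≤ max ‖a‖ s := le_max_left _ _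
      have h4 : 1 ≤ 1 / s * max ‖a‖ s := by
        rw [one_div, inv_mul_eq_div, le_div_iff₀ hs, one_mul]
        exact le_max_right _ _
      linarith
    have h2 : (G.roots.map fun a => (1 + 1 / s) * ‖(refl s a).eval 0‖).prod =
        (1 + 1 / s) ^ (Multiset.card G.roots) * (G.roots.map fun a => ‖(refl s a).eval 0‖).prod := by
      rw [Multiset.prod_map_mul]
      simp
    have h3 : (1 + 1 / s) ^ (Multiset.card G.roots) ≤ (1 + 1 / s) ^ r := by
      refine pow_le_pow_right₀ ?_ ((Polynomial.card_roots' G).trans hG)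
      have : 0 < 1 / s := by positivity
      linarith
    have h4 : 0 ≤ (G.roots.map fun a => ‖(refl s a).eval 0‖).prod := by
      refine Multiset.prod_nonneg fun x hx => ?_
      obtain ⟨a, -, rfl⟩ := Multiset.mem_map.mp hx
      exact norm_nonneg _
    calc ‖G.leadingCoeff‖ * (G.roots.map fun a => ‖1 - a‖).prod
        ≤ ‖G.leadingCoeff‖ * ((1 + 1 / s) ^ r * (G.roots.map fun a => ‖(refl s a).eval 0‖).prod) := by
          gcongr
          rw [h2] at h1
          refine h1.trans ?_
          gcongr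
      _ = _ := by ring
  calc ‖P.eval 0‖ * ‖G.eval 1‖ ≤ ‖P.eval 0‖ * ((1 + 1 / s) ^ r * ‖H.eval 0‖) := by gcongr
    _ = (1 + 1 / s) ^ r * ‖P.eval 0 * H.eval 0‖ := by rw [norm_mul]; ring
    _ ≤ _ := by gcongr

end

end Pool.Agent.La9f24d
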