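import Pool.Agent.Lib.MP_a9f24d_an.Zah

set_option autoImplicit false

namespace Pool.Agent.La9f24d

open Finset MeasureTheory Filter Topology

section

variable {n : ℕ} {K : Set (Fin n → ℂ)} {V : (Fin n → ℂ) → ℝ}

/-- the Vandermonde integral -/
noncomputable def ZZ (ν : Measure (Fin n → ℂ)) (k : ℕ) : ℝ :=
  ∫ z, ‖dt z‖ ^ 2 ∂(Measure.pi (fun _ : Idx n k => ν))

/-- total mass -/
noncomputable def mass (ν : Measure (Fin n → ℂ)) : ℝ := (ν Set.univ).toReal

variable (ν : Measure (Fin n → ℂ)) [IsFiniteMeasure ν]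

omit [IsFiniteMeasure ν] in
lemma ae_mem (hν : ν Kᶜ = 0) : ∀ᵐ x ∂ν, x ∈ K := by
  rw [ae_iff]; exact hν

lemma ae_pi_mem (hν : ν Kᶜ = 0) (k : ℕ) :
    ∀ᵐ z ∂(Measure.pi (fun _ : Idx n k => ν)), ∀ a, z a ∈ K := by
  rw [ae_all_iff]
  intro a
  exact (Measure.tendsto_eval_ae_ae (μ := fun _ : Idx n k => ν) (i := a)).eventually
    (ae_mem ν hν)

lemma integrable_eval (hR : Reg K V) (hν : ν Kᶜ = 0) (p : MvPolynomial (Fin n) ℂ) :
    Integrable (fun y => ‖MvPolynomial.eval y p‖ ^ 2) ν := by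
  obtain ⟨z, hz, hmax⟩ := hR.exists_max p
  refine Integrable.of_bound
    ((MvPolynomial.continuous_eval p).norm.pow 2).aestronglyMeasurable
    (‖MvPolynomial.eval z p‖ ^ 2) ?_
  filter_upwards [ae_mem ν hν] with x hx
  rw [norm_pow, norm_norm]
  have := hmax x hx
  gcongr

lemma integrable_dt (hR : Reg K V) (hν : ν Kᶜ = 0) (k : ℕ) :
    Integrable (fun z => ‖dt z‖ ^ 2) (Measure.pi (fun _ : Idx n k => ν)) := by
  refine Integrable.of_bound (continuous_dt.norm.pow 2).aestronglyMeasurable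
    (VV K k ^ 2) ?_
  filter_upwards [ae_pi_mem ν hν k] with z hz
  rw [norm_pow, norm_norm]
  have := hR.norm_dt_le_VV z hz
  gcongr

omit [IsFiniteMeasure ν] in
lemma ZZ_nonneg (k : ℕ) : 0 ≤ ZZ ν k := integral_nonneg fun _ => by positivity

lemma ZZ_le (hR : Reg K V) (hν : ν Kᶜ = 0) (k : ℕ) :
    ZZ ν k ≤ VV K k ^ 2 * mass ν ^ (NN n k) := by
  have h1 : ZZ ν k ≤ ∫ _z, VV K k ^ 2 ∂(Measure.pi (fun _ : Idx n k => ν)) := by
    refine integral_mono_ae (integrable_dt ν hR hν k) (integrable_const _) ?_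
    filter_upwards [ae_pi_mem ν hν k] with z hz
    have := hR.norm_dt_le_VV z hz
    gcongr
  refine h1.trans (le_of_eq ?_)
  rw [integral_const, smul_eq_mul, mul_comm]
  congr 1
  rw [measureReal_def, Measure.pi_univ, prod_const, ENNReal.toReal_pow, card_univ]
  rfl

/-- in each variable the Vandermonde determinant is a polynomial of degree at most `k` -/
lemma exists_poly_update {k : ℕ} (z : Idx n k → (Fin n → ℂ)) (a : Idx n k) :
    ∃ p : MvPolynomial (Fin n) ℂ, p.totalDegree ≤ k ∧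
      ∀ y, dt (Function.update z a y) = MvPolynomial.eval y p := by
  set A : Matrix (Idx n k) (Idx n k) ℂ :=
    Matrix.of (fun a b : Idx n k => ∏ i, z a i ^ ((b.1 i : ℕ))) with hA
  let L := Matrix.cramer A.transpose
  let c : Idx n k → ℂ := fun j => L (Pi.single j 1) a
  refine ⟨ofCoef c, totalDegree_ofCoef c, fun y => ?_⟩
  have h1 : dt (Function.update z a y) = (A.updateRow a (fun b => mono b y)).det := by
    unfold dt
    congr 1
    ext a' b
    simp only [Matrix.of_apply, Matrix.updateRow_apply, Function.update_apply, hA]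
    split_ifs with h
    · rfl
    · rfl
  rw [h1, ← Matrix.cramer_transpose_apply, eval_ofCoef]
  have h2 : (fun b : Idx n k => mono b y) = ∑ b, mono b y • (Pi.single b 1 : Idx n k → ℂ) := by
    ext b
    simp [Finset.sum_apply, Pi.single_apply]
  rw [h2, map_sum, Finset.sum_apply]
  refine sum_congr rfl fun b _ => ?_
  rw [map_smul, Pi.smul_apply, smul_eq_mul, mul_comm]

lemma VV_le_ZZ (hR : Reg K V) (hν : ν Kᶜ = 0) {k : ℕ} {B : ℝ} (hB0 : 0 ≤ B)
    (hB : ∀ p : MvPolynomial (Fin n) ℂ, p.totalDegree ≤ k → ∀ x ∈ K,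
      ‖MvPolynomial.eval x p‖ ^ 2 ≤ B * ∫ y, ‖MvPolynomial.eval y p‖ ^ 2 ∂ν) :
    VV K k ^ 2 ≤ B ^ (NN n k) * ZZ ν k := by
  classical
  -- the extended version of the hypothesis
  set B' : ENNReal := ENNReal.ofReal B with hB'
  have hBe : ∀ p : MvPolynomial (Fin n) ℂ, p.totalDegree ≤ k → ∀ x ∈ K,
      ENNReal.ofReal (‖MvPolynomial.eval x p‖ ^ 2) ≤
        B' * ∫⁻ y, ENNReal.ofReal (‖MvPolynomial.eval y p‖ ^ 2) ∂ν := by
    intro p hp x hx
    rw [← ofReal_integral_eq_lintegral_ofReal (integrable_eval ν hR hν p)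
      (Eventually.of_forall fun _ => by positivity), hB', ← ENNReal.ofReal_mul hB0]
    exact ENNReal.ofReal_le_ofReal (hB p hp x hx)
  set Φ : (Idx n k → (Fin n → ℂ)) → ENNReal := fun z => ENNReal.ofReal (‖dt z‖ ^ 2) with hΦ
  have hΦm : Measurable Φ := by
    have h0 : Continuous fun z : Idx n k → (Fin n → ℂ) => ‖dt z‖ ^ 2 := continuous_dt.norm.pow 2
    exact (ENNReal.continuous_ofReal.comp h0).measurable
  have key : ∀ s : Finset (Idx n k), ∀ z : Idx n k → (Fin n → ℂ), (∀ a, z a ∈ K) →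
      Φ z ≤ B' ^ s.card * (∫⋯∫⁻_s, Φ ∂(fun _ => ν)) z := by
    intro s
    induction s using Finset.induction_on with
    | empty => intro z _; simp
    | insert a s ha ih =>
      intro z hz
      rw [lmarginal_insert _ hΦm ha, card_insert_of_notMem ha, pow_succ, mul_comm (B' ^ _), mul_assoc]
      obtain ⟨p, hp, hpe⟩ := exists_poly_update z a
      have h1 : Φ z ≤ B' * ∫⁻ y, Φ (Function.update z a y) ∂ν := by
        have h2 := hBe p hp (z a) (hz a)
        simp only [← hpe] at h2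
        rw [Function.update_eq_self] at h2
        exact h2
      refine h1.trans ?_
      gcongr
      rw [← lintegral_const_mul' _ _ (ENNReal.pow_ne_top ENNReal.ofReal_ne_top)]
      refine lintegral_mono_ae ?_
      filter_upwards [ae_mem ν hν] with y hy
      refine ih _ fun a' => ?_
      rw [Function.update_apply]
      split_ifs
      · exact hy
      · exact hz a'
  obtain ⟨z, hz, hzV⟩ := hR.exists_fekete k
  have h1 := key univ z hz
  rw [lmarginal_univ] at h1
  simp only [hΦ] at h1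
  rw [← ofReal_integral_eq_lintegral_ofReal (integrable_dt ν hR hν k)
      (Eventually.of_forall fun _ => by positivity), hB', ← ENNReal.ofReal_pow hB0,
      ← ENNReal.ofReal_mul (by positivity), hzV, card_univ] at h1
  have h2 : 0 ≤ B ^ (NN n k) * ZZ ν k := mul_nonneg (by positivity) (ZZ_nonneg ν k)
  exact (ENNReal.ofReal_le_ofReal_iff h2).mp h1

/-- upper bound for the Vandermonde integral in terms of any family of polynomials -/
lemma ZZ_mul_le (hR : Reg K V) (hν : ν Kᶜ = 0) {k : ℕ} (q : Idx n k → MvPolynomial (Fin n) ℂ)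
    (hq : ∀ b, (q b).totalDegree ≤ k) :
    ZZ ν k * ‖(Matrix.of (fun b' b : Idx n k => MvPolynomial.coeff (ex b') (q b))).det‖ ^ 2 ≤
      ((NN n k).factorial : ℝ) ^ 2 * ∏ b, ∫ y, ‖MvPolynomial.eval y (q b)‖ ^ 2 ∂ν := by
  set Q := (Matrix.of (fun b' b : Idx n k => MvPolynomial.coeff (ex b') (q b))) with hQ
  have hmul : ∀ z : Idx n k → (Fin n → ℂ),
      (Matrix.of (fun a b : Idx n k => MvPolynomial.eval (z a) (q b))).det = dt z * Q.det := by
    intro z
    have h1 : (Matrix.of (fun a b : Idx n k => MvPolynomial.eval (z a) (q b))) =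
      (Matrix.of (fun a b : Idx n k => ∏ i, z a i ^ ((b.1 i : ℕ)))) * Q := by
      ext a b
      rw [Matrix.mul_apply]
      simp only [Matrix.of_apply, hQ]
      rw [eval_eq_sum (hq b)]
      refine sum_congr rfl fun b' _ => ?_
      rw [mul_comm]; rfl
    rw [h1, Matrix.det_mul]; rfl
  have h1 : ZZ ν k * ‖Q.det‖ ^ 2 =
      ∫ z, ‖(Matrix.of (fun a b : Idx n k => MvPolynomial.eval (z a) (q b))).det‖ ^ 2
        ∂(Measure.pi (fun _ : Idx n k => ν)) := by
    unfold ZZ
    rw [← integral_mul_const]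
    congr 1
    ext z
    rw [hmul, norm_mul, mul_pow]
  rw [h1]
  -- pointwise bound
  have hpt : ∀ z : Idx n k → (Fin n → ℂ),
      ‖(Matrix.of (fun a b : Idx n k => MvPolynomial.eval (z a) (q b))).det‖ ^ 2 ≤
      ((NN n k).factorial : ℝ) * ∑ σ : Equiv.Perm (Idx n k), ∏ a, ‖MvPolynomial.eval (z a) (q (σ a))‖ ^ 2 := by
    intro z
    rw [← Matrix.det_transpose, Matrix.det_apply]
    have h2 : ‖∑ σ : Equiv.Perm (Idx n k), Equiv.Perm.sign σ •
        ∏ i, (Matrix.of (fun a b : Idx n k => MvPolynomial.eval (z a) (q b))).transpose (σ i) i‖ ≤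
        ∑ σ : Equiv.Perm (Idx n k), ∏ a, ‖MvPolynomial.eval (z a) (q (σ a))‖ := by
      refine (norm_sum_le _ _).trans (le_of_eq ?_)
      refine sum_congr rfl fun σ _ => ?_
      have h3 : ∀ w : ℂ, ‖Equiv.Perm.sign σ • w‖ = ‖w‖ := by
        intro w
        rcases Int.units_eq_one_or (Equiv.Perm.sign σ) with h | h <;> simp [h]
      rw [h3, norm_prod]
      rfl
    calc _ ≤ (∑ σ : Equiv.Perm (Idx n k), ∏ a, ‖MvPolynomial.eval (z a) (q (σ a))‖) ^ 2 := by
          gcongr
      _ ≤ (Finset.univ : Finset (Equiv.Perm (Idx n k))).card *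
          ∑ σ : Equiv.Perm (Idx n k), (∏ a, ‖MvPolynomial.eval (z a) (q (σ a))‖) ^ 2 :=
          sq_sum_le_card_mul_sum_sq
      _ = _ := by
          rw [card_univ, Fintype.card_perm]
          simp only [prod_pow]
          rfl
  have hint : ∀ σ : Equiv.Perm (Idx n k), Integrable
      (fun z : Idx n k → (Fin n → ℂ) => ∏ a, ‖MvPolynomial.eval (z a) (q (σ a))‖ ^ 2)
      (Measure.pi (fun _ : Idx n k => ν)) := fun σ =>
    Integrable.fintype_prod (f := fun a y => ‖MvPolynomial.eval y (q (σ a))‖ ^ 2)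
      (fun a => integrable_eval ν hR hν (q (σ a)))
  have hval : ∀ σ : Equiv.Perm (Idx n k),
      ∫ z : Idx n k → (Fin n → ℂ), ∏ a, ‖MvPolynomial.eval (z a) (q (σ a))‖ ^ 2
        ∂(Measure.pi (fun _ : Idx n k => ν)) = ∏ b, ∫ y, ‖MvPolynomial.eval y (q b)‖ ^ 2 ∂ν := by
    intro σ
    have h4 := integral_fintype_prod_eq_prod (μ := fun _ : Idx n k => ν)
      (fun (a : Idx n k) (y : Fin n → ℂ) => ‖MvPolynomial.eval y (q (σ a))‖ ^ 2)
    rw [h4]
    exact Equiv.prod_comp σ (fun b => ∫ y, ‖MvPolynomial.eval y (q b)‖ ^ 2 ∂ν)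
  calc _ ≤ ∫ z : Idx n k → (Fin n → ℂ), ((NN n k).factorial : ℝ) *
        ∑ σ : Equiv.Perm (Idx n k), ∏ a, ‖MvPolynomial.eval (z a) (q (σ a))‖ ^ 2
        ∂(Measure.pi (fun _ : Idx n k => ν)) := by
        refine integral_mono_of_nonneg (Eventually.of_forall fun _ => by positivity) ?_
          (Eventually.of_forall hpt)
        exact (integrable_finsetSum _ fun σ _ => hint σ).const_mul _
    _ = ((NN n k).factorial : ℝ) ^ 2 * ∏ b, ∫ y, ‖MvPolynomial.eval y (q b)‖ ^ 2 ∂ν := by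
        rw [integral_const_mul, integral_finsetSum _ fun σ _ => hint σ]
        simp only [hval, sum_const, card_univ, Fintype.card_perm, nsmul_eq_mul]
        unfold NN
        ring

end

end Pool.Agent.La9f24d
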