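import Pool.Agent.Lib.MP_a9f24d_an.Avg

set_option autoImplicit false

namespace Pool.Agent.La9f24d

open Finset

section

/-- the index set of the monomials of degree at most `k` -/
abbrev Idx (n k : ℕ) := {α : Fin n → Fin (k+1) // ∑ i, (α i : ℕ) ≤ k}

/-- the monomial function -/
def mono {n k : ℕ} (b : Idx n k) (z : Fin n → ℂ) : ℂ := ∏ i, z i ^ ((b.1 i : ℕ))

/-- the exponent vector -/
noncomputable def ex {n k : ℕ} (b : Idx n k) : Fin n →₀ ℕ :=
  Finsupp.equivFunOnFinite.symm (fun i => (b.1 i : ℕ))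

@[simp] lemma ex_apply {n k : ℕ} (b : Idx n k) (i : Fin n) : ex b i = (b.1 i : ℕ) := rfl

lemma ex_injective {n k : ℕ} : Function.Injective (ex : Idx n k → _) := by
  intro a b h
  ext i
  have := DFunLike.congr_fun h i
  simpa using this

/-- the index with a given exponent vector -/
def ofEx {n k : ℕ} (d : Fin n →₀ ℕ) (h : ∑ i, d i ≤ k) : Idx n k :=
  ⟨fun i => ⟨d i, by
    have : d i ≤ ∑ i, d i := single_le_sum (f := fun i => d i) (fun _ _ => Nat.zero_le _) (mem_univ i)
    omega⟩, h⟩

lemma ex_ofEx {n k : ℕ} (d : Fin n →₀ ℕ) (h : ∑ i, d i ≤ k) : ex (ofEx d h) = d := by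
  ext i; rfl

lemma ex_sum_le {n k : ℕ} (b : Idx n k) : ∑ i, ex b i ≤ k := b.2

lemma continuous_mono {n k : ℕ} (b : Idx n k) : Continuous (mono b) := by
  unfold mono; fun_prop

/-- evaluation in terms of the index set -/
lemma eval_eq_sum {n k : ℕ} {p : MvPolynomial (Fin n) ℂ} (hp : p.totalDegree ≤ k)
    (z : Fin n → ℂ) :
    MvPolynomial.eval z p = ∑ b : Idx n k, MvPolynomial.coeff (ex b) p * mono b z := by
  classical
  rw [MvPolynomial.eval_eq']
  have h1 : ∑ b : Idx n k, MvPolynomial.coeff (ex b) p * mono b z =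
      ∑ d ∈ univ.image (ex : Idx n k → _), MvPolynomial.coeff d p * ∏ i, z i ^ d i := by
    rw [sum_image fun a _ b _ h => ex_injective h]
    rfl
  rw [h1]
  refine sum_subset ?_ ?_
  · intro d hd
    rw [mem_image]
    have h2 : ∑ i, d i ≤ k := by
      have := MvPolynomial.le_totalDegree hd
      rw [Finsupp.sum_fintype _ _ (fun _ => rfl)] at this
      exact this.trans hp
    exact ⟨ofEx d h2, mem_univ _, ex_ofEx d h2⟩
  · intro d _ hd
    rw [MvPolynomial.notMem_support_iff] at hd
    rw [hd, zero_mul]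

/-- a polynomial with given coefficients -/
noncomputable def ofCoef {n k : ℕ} (c : Idx n k → ℂ) : MvPolynomial (Fin n) ℂ :=
  ∑ b, MvPolynomial.monomial (ex b) (c b)

lemma totalDegree_ofCoef {n k : ℕ} (c : Idx n k → ℂ) : (ofCoef c).totalDegree ≤ k := by
  unfold ofCoef
  refine MvPolynomial.totalDegree_finsetSum_le fun b _ => ?_
  refine (MvPolynomial.totalDegree_monomial_le _ _).trans ?_
  rw [Finsupp.sum_fintype _ _ (fun _ => rfl)]
  exact ex_sum_le b

lemma coeff_ofCoef {n k : ℕ} (c : Idx n k → ℂ) (b : Idx n k) :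
    MvPolynomial.coeff (ex b) (ofCoef c) = c b := by
  classical
  unfold ofCoef
  rw [MvPolynomial.coeff_sum]
  simp only [MvPolynomial.coeff_monomial]
  rw [sum_eq_single b]
  · simp
  · intro b' _ hb'
    rw [if_neg fun h => hb' (ex_injective h)]
  · simp

lemma eval_ofCoef {n k : ℕ} (c : Idx n k → ℂ) (z : Fin n → ℂ) :
    MvPolynomial.eval z (ofCoef c) = ∑ b, c b * mono b z := by
  rw [eval_eq_sum (totalDegree_ofCoef c)]
  simp only [coeff_ofCoef]

/-- a polynomial of degree at most `k` is determined by its coefficients at the indices -/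
lemma eq_zero_of_coeff {n k : ℕ} {p : MvPolynomial (Fin n) ℂ} (hp : p.totalDegree ≤ k)
    (h : ∀ b : Idx n k, MvPolynomial.coeff (ex b) p = 0) : p = 0 := by
  ext d
  rw [MvPolynomial.coeff_zero]
  by_contra hne
  have hd : d ∈ p.support := MvPolynomial.mem_support_iff.mpr hne
  have h2 : ∑ i, d i ≤ k := by
    have := MvPolynomial.le_totalDegree hd
    rw [Finsupp.sum_fintype _ _ (fun _ => rfl)] at this
    exact this.trans hp
  apply hne
  have := h (ofEx d h2)
  rwa [ex_ofEx] at this

/-- number of monomials -/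
def NN (n k : ℕ) : ℕ := Fintype.card (Idx n k)

/-- sum of the degrees -/
noncomputable def ell (n k : ℕ) : ℝ := ∑ a : Idx n k, ∑ i, ((a.1 i : ℕ) : ℝ)

/-- homogenisation -/
noncomputable def toGam {n k : ℕ} (b : Idx n k) : Option (Fin n) →₀ ℕ :=
  Finsupp.equivFunOnFinite.symm (fun o => Option.elim o (k - ∑ i, (b.1 i : ℕ))
    (fun i => (b.1 i : ℕ)))

lemma sum_Idx {n k : ℕ} (f : (Fin n →₀ ℕ) → ℝ) :
    ∑ b : Idx n k, f (ex b) = ∑ α ∈ Gam (Option (Fin n)) k, f α.some := by
  refine sum_bij' (fun b _ => toGam b) (fun α hα => ofEx α.some (by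
      rw [mem_Gam, Fintype.sum_option] at hα
      simp only [Finsupp.some_apply]
      omega)) ?_ ?_ ?_ ?_ ?_
  · intro b _
    rw [mem_Gam, Fintype.sum_option]
    simp only [toGam, Finsupp.coe_equivFunOnFinite_symm, Option.elim]
    have := b.2
    omega
  · intro α hα; exact mem_univ _
  · intro b _
    ext i
    simp [toGam, ofEx]
  · intro α hα
    rw [mem_Gam, Fintype.sum_option] at hα
    ext o
    rcases o with _ | i
    · simp only [toGam, ofEx, Finsupp.coe_equivFunOnFinite_symm, Option.elim, Finsupp.some_apply]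
      omega
    · simp [toGam, ofEx]
  · intro b _
    congr 1
    ext i
    simp [toGam]

lemma NN_eq {n k : ℕ} : NN n k = (Gam (Option (Fin n)) k).card := by
  have h := sum_Idx (n := n) (k := k) (fun _ => (1 : ℝ))
  simp only [sum_const, nsmul_eq_mul, mul_one, card_univ] at h
  unfold NN
  exact_mod_cast h

lemma NN_pos (n k : ℕ) : 0 < NN n k := by
  unfold NN
  rw [Fintype.card_pos_iff]
  exact ⟨ofEx 0 (by simp)⟩

/-- averages over the index sets are subadditive -/
theorem subadditive_avg {n : ℕ} (f : (Fin n →₀ ℕ) → ℝ)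
    (hf : ∀ α β, f (α + β) ≤ f α + f β) :
    Subadditive fun k => (∑ b : Idx n k, f (ex b)) / NN n k := by
  intro k m
  simp only [sum_Idx, NN_eq]
  exact avg_subadditive (fun α : Option (Fin n) →₀ ℕ => f α.some)
    (fun α β => by rw [Finsupp.some_add]; exact hf _ _) k m

/-- the average degree in degree one -/
noncomputable def Lc (n : ℕ) : ℝ := ell n 1 / NN n 1

lemma ell_eq_sum_ex (n k : ℕ) : ell n k = ∑ b : Idx n k, ((∑ i, ex b i : ℕ) : ℝ) := by
  unfold ell
  refine sum_congr rfl fun b _ => ?_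
  push_cast
  rfl

lemma avg_deg_add (n k m : ℕ) :
    ell n (k + m) / NN n (k + m) = ell n k / NN n k + ell n m / NN n m := by
  have h1 := subadditive_avg (n := n) (fun d => ((∑ i, d i : ℕ) : ℝ)) (by
    intro α β
    simp [sum_add_distrib]) k m
  have h2 := subadditive_avg (n := n) (fun d => -((∑ i, d i : ℕ) : ℝ)) (by
    intro α β
    simp [sum_add_distrib]) k m
  simp only [ell_eq_sum_ex]
  simp only [sum_neg_distrib, neg_div] at h2
  apply le_antisymm h1
  linarith

lemma ell_eq (n k : ℕ) : ell n k = Lc n * k * NN n k := by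
  have hN : ∀ k, (0 : ℝ) < NN n k := fun k => by exact_mod_cast NN_pos n k
  have h : ∀ k : ℕ, ell n k / NN n k = k * Lc n := by
    intro k
    induction k with
    | zero =>
      have := avg_deg_add n 0 0
      simp only [add_zero] at this
      have h0 : ell n 0 / NN n 0 = 0 := by linarith
      rw [h0]; simp
    | succ k ih =>
      rw [avg_deg_add, ih]
      unfold Lc
      push_cast; ring
  have h1 := h k
  rw [div_eq_iff (hN k).ne'] at h1
  rw [h1]; ring

lemma Lc_pos {n : ℕ} (hn : 0 < n) : 0 < Lc n := by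
  unfold Lc
  have h1 : (0 : ℝ) < NN n 1 := by exact_mod_cast NN_pos n 1
  refine div_pos ?_ h1
  rw [ell_eq_sum_ex]
  have hsum : ∑ i, (Finsupp.single (⟨0, hn⟩ : Fin n) 1) i = 1 := by
    simp [Finsupp.single_apply]
  have h2 : ((∑ i, ex (ofEx (k := 1) (Finsupp.single (⟨0, hn⟩ : Fin n) 1) hsum.le) i : ℕ) : ℝ) ≤
      ∑ b : Idx n 1, ((∑ i, ex b i : ℕ) : ℝ) :=
    single_le_sum (f := fun b : Idx n 1 => ((∑ i, ex b i : ℕ) : ℝ))
      (fun b _ => by positivity) (mem_univ _)
  rw [ex_ofEx, hsum] at h2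
  exact lt_of_lt_of_le (by norm_num) h2

lemma NN_le (n k : ℕ) : NN n k ≤ (k + 1) ^ n := by
  unfold NN
  calc Fintype.card (Idx n k) ≤ Fintype.card (Fin n → Fin (k + 1)) :=
        Fintype.card_subtype_le _
    _ = _ := by simp

lemma le_NN (n k : ℕ) : (k / n + 1) ^ n ≤ NN n k := by
  unfold NN
  have h1 : Fintype.card (Fin n → Fin (k / n + 1)) = (k / n + 1) ^ n := by simp
  rw [← h1]
  have hle : ∀ (g : Fin n → Fin (k / n + 1)), ∑ i, (g i : ℕ) ≤ k := by
    intro g
    calc ∑ i, (g i : ℕ) ≤ ∑ _i : Fin n, k / n :=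
          sum_le_sum fun i _ => by have := (g i).2; omega
      _ = n * (k / n) := by simp
      _ ≤ k := Nat.mul_div_le k n
  refine Fintype.card_le_of_injective
    (fun g => (⟨fun i => ⟨(g i : ℕ), by
      have := (g i).2
      have h2 := Nat.div_le_self k n
      omega⟩, hle g⟩ : Idx n k)) ?_
  intro g g' h
  ext i
  have := congrArg (fun b : Idx n k => ((b.1 i : Fin (k+1)) : ℕ)) h
  simpa using this

end

end Pool.Agent.La9f24d
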