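import Pool.Agent.Lib.MP_a9f24d_an.Poly
import Pool.Agent.Lib.MP_a9f24d_an.DetL
import Pool.Agent.Lib.MP_a9f24d_an.Line

set_option autoImplicit false

namespace Pool.Agent.La9f24d

open Finset

section

/-- Cauchy estimate on the unit torus. -/
lemma norm_coeff_le {n : ℕ} (p : MvPolynomial (Fin n) ℂ) {M : ℝ}
    (hM : ∀ z : Fin n → ℂ, (∀ i, ‖z i‖ = 1) → ‖MvPolynomial.eval z p‖ ≤ M) (d : Fin n →₀ ℕ) :
    ‖MvPolynomial.coeff d p‖ ≤ M := by
  classical
  set N : ℕ := p.totalDegree + (∑ i, d i) + 1 with hN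
  have hNpos : N ≠ 0 := by omega
  obtain ⟨ζ, hζ⟩ : ∃ ζ : ℂ, IsPrimitiveRoot ζ N := ⟨_, Complex.isPrimitiveRoot_exp N hNpos⟩
  have hζn : ‖ζ‖ = 1 := hζ.norm'_eq_one hNpos
  have hdlt : ∀ i, d i < N := by
    intro i
    have : d i ≤ ∑ i, d i := single_le_sum (f := fun i => d i) (fun _ _ => Nat.zero_le _) (mem_univ i)
    omega
  -- the geometric sums
  have hgeom : ∀ e : ℕ, ∑ j : Fin N, (ζ ^ (j : ℕ)) ^ e = if N ∣ e then (N : ℂ) else 0 := by
    intro e
    have h1 : ∀ j : Fin N, (ζ ^ (j : ℕ)) ^ e = (ζ ^ e) ^ (j : ℕ) := by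
      intro j; rw [← pow_mul, ← pow_mul, mul_comm]
    rw [sum_congr rfl fun j _ => h1 j, Fin.sum_univ_eq_sum_range (fun j => (ζ ^ e) ^ j) N]
    split_ifs with h
    · have : ζ ^ e = 1 := (hζ.pow_eq_one_iff_dvd e).mpr h
      simp [this]
    · have hne : ζ ^ e ≠ 1 := fun h' => h ((hζ.pow_eq_one_iff_dvd e).mp h')
      rw [geom_sum_eq hne, ← pow_mul, mul_comm e N, pow_mul, hζ.pow_eq_one]
      simp
  -- the sum over the grid
  set S : ℂ := ∑ ω : Fin n → Fin N, MvPolynomial.eval (fun i => ζ ^ ((ω i : ℕ))) p *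
    ∏ i, (ζ ^ ((ω i : ℕ))) ^ (N - d i) with hS
  have hS1 : S = MvPolynomial.coeff d p * (N : ℂ) ^ n := by
    have h1 : ∀ ω : Fin n → Fin N, MvPolynomial.eval (fun i => ζ ^ ((ω i : ℕ))) p *
        ∏ i, (ζ ^ ((ω i : ℕ))) ^ (N - d i) =
        ∑ d' ∈ p.support, MvPolynomial.coeff d' p *
          ∏ i, (ζ ^ ((ω i : ℕ))) ^ (d' i + (N - d i)) := by
      intro ω
      rw [MvPolynomial.eval_eq', sum_mul]
      refine sum_congr rfl fun d' _ => ?_
      rw [mul_assoc, ← prod_mul_distrib]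
      congr 1
      refine prod_congr rfl fun i _ => ?_
      rw [pow_add]
    rw [hS, sum_congr rfl fun ω _ => h1 ω, sum_comm]
    have h2 : ∀ d' ∈ p.support, ∑ ω : Fin n → Fin N, MvPolynomial.coeff d' p *
        ∏ i, (ζ ^ ((ω i : ℕ))) ^ (d' i + (N - d i)) =
        if d' = d then MvPolynomial.coeff d p * (N : ℂ) ^ n else 0 := by
      intro d' hd'
      rw [← mul_sum]
      have h3 : ∑ ω : Fin n → Fin N, ∏ i, (ζ ^ ((ω i : ℕ))) ^ (d' i + (N - d i)) =
          ∏ i, ∑ j : Fin N, (ζ ^ (j : ℕ)) ^ (d' i + (N - d i)) := by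
        rw [prod_univ_sum, Fintype.piFinset_univ]
      rw [h3]
      have hd'lt : ∀ i, d' i < N := by
        intro i
        have h4 := MvPolynomial.le_totalDegree hd'
        rw [Finsupp.sum_fintype _ _ (fun _ => rfl)] at h4
        have : d' i ≤ ∑ i, d' i :=
          single_le_sum (f := fun i => d' i) (fun _ _ => Nat.zero_le _) (mem_univ i)
        omega
      split_ifs with h
      · subst h
        congr 1
        have : ∀ i, ∑ j : Fin N, (ζ ^ (j : ℕ)) ^ (d' i + (N - d' i)) = (N : ℂ) := by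
          intro i
          rw [hgeom, if_pos]
          rw [Nat.add_sub_cancel' (hd'lt i).le]
        simp [this]
      · obtain ⟨i, hi⟩ : ∃ i, d' i ≠ d i := by
          by_contra hcon
          push Not at hcon
          exact h (Finsupp.ext hcon)
        rw [prod_eq_zero (mem_univ i), mul_zero]
        rw [hgeom, if_neg]
        intro hdvd
        obtain ⟨c, hc⟩ := hdvd
        have h5 := hd'lt i
        have h6 := hdlt i
        have h7 : c = 1 := by
          have : c < 2 := by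
            by_contra hcc
            push Not at hcc
            have : N * 2 ≤ N * c := Nat.mul_le_mul_left N hcc
            omega
          have : c ≠ 0 := by
            rintro rfl
            omega
          omega
        subst h7
        omega
    rw [sum_congr rfl h2, sum_ite_eq']
    split_ifs with h
    · rfl
    · rw [MvPolynomial.notMem_support_iff.mp h, zero_mul]
  have hS2 : ‖S‖ ≤ (N : ℝ) ^ n * M := by
    rw [hS]
    refine (norm_sum_le _ _).trans ?_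
    calc ∑ ω : Fin n → Fin N, ‖MvPolynomial.eval (fun i => ζ ^ ((ω i : ℕ))) p *
        ∏ i, (ζ ^ ((ω i : ℕ))) ^ (N - d i)‖ ≤ ∑ _ω : Fin n → Fin N, M := by
          refine sum_le_sum fun ω _ => ?_
          rw [norm_mul, norm_prod]
          simp only [norm_pow, hζn, one_pow, prod_const_one, mul_one]
          exact hM _ fun i => by simp [hζn]
      _ = _ := by simp
  rw [hS1, norm_mul, norm_pow, Complex.norm_natCast, mul_comm] at hS2
  exact le_of_mul_le_mul_left hS2 (by positivity)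

/-- The regularity data used below. -/
structure Reg {n : ℕ} (K : Set (Fin n → ℂ)) (V : (Fin n → ℂ) → ℝ) : Prop where
  compact : IsCompact K
  nonempty : K.Nonempty
  cont : Continuous V
  le_zero : ∀ z ∈ K, V z ≤ 0
  nonneg : ∀ z, 0 ≤ V z
  bw : ∀ (k : ℕ) (p : MvPolynomial (Fin n) ℂ), p.totalDegree ≤ k → ∀ M : ℝ,
    (∀ x ∈ K, ‖MvPolynomial.eval x p‖ ≤ M) → ∀ z, ‖MvPolynomial.eval z p‖ ≤ M * Real.exp (k * V z)

theorem Reg.of_isLUB {n : ℕ} {K : Set (Fin n → ℂ)} (hK : IsCompact K)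
    {V : (Fin n → ℂ) → ℝ} (hV : Continuous V)
    (h : ∀ z : Fin n → ℂ,
      IsLUB {t : ℝ | ∃ k : ℕ, 1 ≤ k ∧ ∃ p : MvPolynomial (Fin n) ℂ, p.totalDegree ≤ k ∧
        (∀ x ∈ K, ‖MvPolynomial.eval x p‖ ≤ 1) ∧
        t = Real.log ‖MvPolynomial.eval z p‖ / (k : ℝ)} (V z)) : Reg K V := by
  have hne : K.Nonempty := by
    by_contra hemp
    rw [Set.not_nonempty_iff_eq_empty] at hemp
    subst hemp
    have h0 : V 0 + 1 ≤ V 0 := (h 0).1 ⟨1, le_rfl, MvPolynomial.C ((Real.exp (V 0 + 1) : ℝ) : ℂ),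
      by simp, by simp, by
        rw [MvPolynomial.eval_C, Complex.norm_real, Real.norm_of_nonneg (Real.exp_pos _).le,
          Real.log_exp]
        simp⟩
    linarith
  have hnonneg : ∀ z, 0 ≤ V z := by
    intro z
    exact (h z).1 ⟨1, le_rfl, 1, by simp, by simp, by simp⟩
  have hbw1 : ∀ (k : ℕ), 1 ≤ k → ∀ (p : MvPolynomial (Fin n) ℂ), p.totalDegree ≤ k → ∀ M : ℝ,
      0 < M → (∀ x ∈ K, ‖MvPolynomial.eval x p‖ ≤ M) → ∀ z,
      ‖MvPolynomial.eval z p‖ ≤ M * Real.exp (k * V z) := by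
    intro k hk p hp M hM hpM z
    rcases eq_or_ne (MvPolynomial.eval z p) 0 with h0 | h0
    · rw [h0, norm_zero]; positivity
    have hk' : (0 : ℝ) < k := by exact_mod_cast hk
    set q : MvPolynomial (Fin n) ℂ := MvPolynomial.C ((M : ℂ)⁻¹) * p with hq
    have hqe : ∀ x, ‖MvPolynomial.eval x q‖ = M⁻¹ * ‖MvPolynomial.eval x p‖ := by
      intro x
      rw [hq, map_mul, MvPolynomial.eval_C, norm_mul, norm_inv, Complex.norm_real,
        Real.norm_of_nonneg hM.le]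
    have h1 : Real.log ‖MvPolynomial.eval z q‖ / k ≤ V z := (h z).1 ⟨k, hk, q, by
      rw [hq]
      refine (MvPolynomial.totalDegree_mul _ _).trans ?_
      simpa using hp, by
      intro x hx
      rw [hqe, inv_mul_le_iff₀ hM, mul_one]
      exact hpM x hx, rfl⟩
    rw [div_le_iff₀ hk', hqe] at h1
    have hpos : 0 < M⁻¹ * ‖MvPolynomial.eval z p‖ := by
      have := norm_pos_iff.mpr h0
      positivity
    rw [Real.log_le_iff_le_exp hpos, inv_mul_le_iff₀ hM, mul_comm (V z)] at h1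
    exact h1
  refine ⟨hK, hne, hV, ?_, hnonneg, ?_⟩
  · intro z hz
    refine (h z).2 ?_
    rintro t ⟨k, hk, p, hp, hpK, rfl⟩
    have hk' : (0 : ℝ) < k := by exact_mod_cast hk
    refine div_nonpos_of_nonpos_of_nonneg ?_ hk'.le
    exact Real.log_nonpos (norm_nonneg _) (hpK z hz)
  · intro k p hp M hpM z
    obtain ⟨x0, hx0⟩ := hne
    have hM0 : 0 ≤ M := (norm_nonneg _).trans (hpM x0 hx0)
    rcases Nat.eq_zero_or_pos k with rfl | hk
    · have hp0 : p.totalDegree = 0 := Nat.le_zero.mp hp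
      rw [MvPolynomial.totalDegree_eq_zero_iff_eq_C] at hp0
      rw [hp0] at hpM ⊢
      have := hpM x0 hx0
      simpa using this
    · -- let the bound tend to `M`
      have hlim : ∀ ε : ℝ, 0 < ε → ‖MvPolynomial.eval z p‖ ≤ (M + ε) * Real.exp (k * V z) :=
        fun ε hε => hbw1 k hk p hp (M + ε) (by linarith)
          (fun x hx => (hpM x hx).trans (by linarith)) z
      have hE : 0 < Real.exp (k * V z) := Real.exp_pos _
      refine le_of_forall_pos_le_add fun ε hε => ?_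
      have := hlim (ε / Real.exp (k * V z)) (by positivity)
      rw [add_mul, div_mul_cancel₀ _ hE.ne'] at this
      exact this

variable {n : ℕ} {K : Set (Fin n → ℂ)} {V : (Fin n → ℂ) → ℝ}

/-- a bound for `V` on the unit torus -/
lemma Reg.exists_A (hR : Reg K V) : ∃ A : ℝ, 0 ≤ A ∧ ∀ z : Fin n → ℂ, (∀ i, ‖z i‖ = 1) → V z ≤ A := by
  have hc : IsCompact (Metric.closedBall (0 : Fin n → ℂ) 1) := isCompact_closedBall _ _
  obtain ⟨A, hA⟩ := (hc.image hR.cont).bddAbove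
  refine ⟨max A 0, le_max_right _ _, fun z hz => (hA ⟨z, ?_, rfl⟩).trans (le_max_left _ _)⟩
  rw [mem_closedBall_zero_iff, pi_norm_le_iff_of_nonneg zero_le_one]
  exact fun i => (hz i).le

/-- coefficients are controlled by the sup norm on `K` -/
lemma Reg.coeff_le (hR : Reg K V) {A : ℝ}
    (hA : ∀ z : Fin n → ℂ, (∀ i, ‖z i‖ = 1) → V z ≤ A) {k : ℕ}
    {p : MvPolynomial (Fin n) ℂ} (hp : p.totalDegree ≤ k) {M : ℝ}
    (hM : ∀ x ∈ K, ‖MvPolynomial.eval x p‖ ≤ M) (d : Fin n →₀ ℕ) :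
    ‖MvPolynomial.coeff d p‖ ≤ M * Real.exp (k * A) := by
  obtain ⟨x0, hx0⟩ := hR.nonempty
  have hM0 : 0 ≤ M := (norm_nonneg _).trans (hM x0 hx0)
  refine norm_coeff_le p (fun z hz => ?_) d
  refine (hR.bw k p hp M hM z).trans ?_
  have := hA z hz
  gcongr

/-- a polynomial vanishing on `K` is zero -/
lemma Reg.eq_zero (hR : Reg K V) {p : MvPolynomial (Fin n) ℂ}
    (h : ∀ x ∈ K, MvPolynomial.eval x p = 0) : p = 0 := by
  obtain ⟨A, -, hA⟩ := hR.exists_A
  ext d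
  have := hR.coeff_le hA (p := p) le_rfl (M := 0) (fun x hx => by simp [h x hx]) d
  rw [zero_mul, norm_le_zero_iff] at this
  simpa using this

/-- sup norm attained -/
lemma Reg.exists_max (hR : Reg K V) (p : MvPolynomial (Fin n) ℂ) :
    ∃ z ∈ K, ∀ x ∈ K, ‖MvPolynomial.eval x p‖ ≤ ‖MvPolynomial.eval z p‖ := by
  have hc : ContinuousOn (fun x => ‖MvPolynomial.eval x p‖) K :=
    (MvPolynomial.continuous_eval p).norm.continuousOn
  obtain ⟨z, hz, h⟩ := hR.compact.exists_isMaxOn hR.nonempty hc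
  exact ⟨z, hz, fun x hx => h hx⟩

/-- uniform smallness of `V` near `K` along complex lines joining points of `K` -/
lemma Reg.exists_s (hR : Reg K V) {η : ℝ} (hη : 0 < η) :
    ∃ s : ℝ, 0 < s ∧ ∀ z₀ ∈ K, ∀ z₁ ∈ K, ∀ t : ℂ, ‖t‖ = s → V (z₀ + t • (z₁ - z₀)) ≤ η := by
  have hopen : IsOpen {z | V z < η} := isOpen_lt hR.cont continuous_const
  have hsub : K ⊆ {z | V z < η} := fun z hz => (hR.le_zero z hz).trans_lt hη
  obtain ⟨δ, hδ, hδs⟩ := hR.compact.exists_thickening_subset_open hopen hsub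
  obtain ⟨R, hRK⟩ := hR.compact.isBounded.exists_norm_le
  have hR0 : 0 ≤ R := by
    obtain ⟨x0, hx0⟩ := hR.nonempty
    exact (norm_nonneg _).trans (hRK x0 hx0)
  refine ⟨δ / (2 * R + 1) / 2, by positivity, fun z₀ h₀ z₁ h₁ t ht => ?_⟩
  have h1 : z₀ + t • (z₁ - z₀) ∈ Metric.thickening δ K := by
    rw [Metric.mem_thickening_iff]
    refine ⟨z₀, h₀, ?_⟩
    rw [dist_eq_norm, add_sub_cancel_left, norm_smul, ht]
    have h2 : ‖z₁ - z₀‖ ≤ 2 * R := by
      calc ‖z₁ - z₀‖ ≤ ‖z₁‖ + ‖z₀‖ := norm_sub_le _ _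
        _ ≤ R + R := add_le_add (hRK _ h₁) (hRK _ h₀)
        _ = _ := by ring
    calc δ / (2 * R + 1) / 2 * ‖z₁ - z₀‖ ≤ δ / (2 * R + 1) / 2 * (2 * R) := by gcongr
      _ < δ := by
        rw [div_div, div_mul_eq_mul_div, div_lt_iff₀ (by positivity)]
        nlinarith
  exact (hδs h1).le

/-- The key comparison of sup norms: `‖p‖ ‖g‖ ≤ (1 + 1/s)^r e^{(k+r)η} ‖p g‖`. -/
theorem Reg.mul_ge (hR : Reg K V) {η s : ℝ} (hs : 0 < s)
    (hsV : ∀ z₀ ∈ K, ∀ z₁ ∈ K, ∀ t : ℂ, ‖t‖ = s → V (z₀ + t • (z₁ - z₀)) ≤ η)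
    {k r : ℕ} {p g : MvPolynomial (Fin n) ℂ} (hp : p.totalDegree ≤ k) (hg : g.totalDegree ≤ r)
    {M : ℝ} (hM : ∀ x ∈ K, ‖MvPolynomial.eval x (p * g)‖ ≤ M) {z₀ z₁ : Fin n → ℂ}
    (h₀ : z₀ ∈ K) (h₁ : z₁ ∈ K) :
    ‖MvPolynomial.eval z₀ p‖ * ‖MvPolynomial.eval z₁ g‖ ≤
      (1 + 1 / s) ^ r * (M * Real.exp ((k + r : ℕ) * η)) := by
  have hM0 : 0 ≤ M := (norm_nonneg _).trans (hM z₀ h₀)
  let φ : Fin n → Polynomial ℂ := fun i =>
    Polynomial.C (z₀ i) + Polynomial.X * Polynomial.C (z₁ i - z₀ i)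
  have hφ : ∀ (q : MvPolynomial (Fin n) ℂ) (t : ℂ),
      (MvPolynomial.aeval φ q).eval t = MvPolynomial.eval (z₀ + t • (z₁ - z₀)) q := by
    intro q t
    induction q using MvPolynomial.induction_on with
    | C a => simp
    | add p q hp hq => simp [hp, hq]
    | mul_X p i hp =>
      rw [map_mul, Polynomial.eval_mul, hp, map_mul, MvPolynomial.aeval_X, MvPolynomial.eval_X]
      simp [φ]
  have hdeg : (MvPolynomial.aeval φ g).natDegree ≤ r := by
    have h1 : ∀ i, (φ i).natDegree ≤ 1 := by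
      intro i
      simp only [φ]
      compute_degree
    have := MvPolynomial.aeval_natDegree_le g hg φ h1
    simpa using this
  have h := line_bound (MvPolynomial.aeval φ p) (MvPolynomial.aeval φ g) hdeg hs
    (C' := M * Real.exp ((k + r : ℕ) * η)) (by
      intro t ht
      rw [hφ, hφ, ← map_mul]
      refine (hR.bw (k + r) (p * g) ((MvPolynomial.totalDegree_mul _ _).trans
        (add_le_add hp hg)) M hM _).trans ?_
      have := hsV z₀ h₀ z₁ h₁ t ht
      gcongr)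
  rw [hφ, hφ] at h
  simpa using h

end

end Pool.Agent.La9f24d
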