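import Pool.Agent.Lib.MP_a9f24d_an.Reg

set_option autoImplicit false

namespace Pool.Agent.La9f24d

open Finset MonomialOrder Filter Topology

section

lemma det_unitriangular {ι L : Type*} [Fintype ι] [DecidableEq ι] [LinearOrder L] (g : ι → L)
    (hg : Function.Injective g) (U : Matrix ι ι ℂ) (h0 : ∀ i j, g j < g i → U i j = 0)
    (h1 : ∀ i, U i i = 1) : U.det = 1 := by
  classical
  let _ : LinearOrder ι := LinearOrder.lift' g hg
  have h : U.BlockTriangular id := fun i j hij => h0 i j hij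
  have h2 := Matrix.det_of_isUpperTriangular h
  simp only [h1, prod_const_one] at h2
  convert h2

lemma exists_det_ge' {ι L : Type*} [Fintype ι] [inst : DecidableEq ι] [LinearOrder L] (g : ι → L)
    (hg : Function.Injective g) {X : Type*} (K : Set X)
    (f : ι → X → ℂ) (Y : ι → ℝ) (hY : ∀ i, 0 < Y i)
    (h : ∀ i (c : ι → ℂ), ∃ x ∈ K, Y i ≤ ‖f i x + ∑ j ∈ univ.filter (fun j => g j < g i), c j * f j x‖) :
    ∃ x : ι → X, (∀ i, x i ∈ K) ∧
      ∏ i, Y i ≤ ‖Matrix.det (Matrix.of fun i j => f j (x i))‖ := by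
  let O : LinearOrder ι := LinearOrder.lift' g hg
  have hdec : @LinearOrder.toDecidableEq ι O = inst := Subsingleton.elim _ _
  obtain ⟨x, hx, hx2⟩ := @exists_det_ge ι _ O X K f Y hY (by
    intro i c
    obtain ⟨x, hx, hx2⟩ := h i c
    refine ⟨x, hx, hx2.trans (le_of_eq ?_)⟩
    have hset : (univ.filter (fun j => g j < g i) : Finset ι) =
        @Finset.filter ι (fun j => @LT.lt ι O.toLT j i)
          (fun j => @LinearOrder.toDecidableLT ι O j i) univ := by
      ext j
      simp only [mem_filter]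
      rfl
    rw [hset])
  rw [hdec] at hx2
  exact ⟨x, hx, hx2⟩

variable {n : ℕ} {K : Set (Fin n → ℂ)} {V : (Fin n → ℂ) → ℝ}

/-- upper bounds for the sup norms of the monic polynomials with leading exponent `b` -/
def SS (K : Set (Fin n → ℂ)) (b : Fin n →₀ ℕ) : Set ℝ :=
  {M | 0 ≤ M ∧ ∃ p : MvPolynomial (Fin n) ℂ, (degLex (σ := Fin n)).Monic p ∧
    (degLex (σ := Fin n)).degree p = b ∧ ∀ x ∈ K, ‖MvPolynomial.eval x p‖ ≤ M}

/-- the Chebyshev constants -/
noncomputable def YY (K : Set (Fin n → ℂ)) (b : Fin n →₀ ℕ) : ℝ := sInf (SS K b)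

lemma totalDegree_of_degree {p : MvPolynomial (Fin n) ℂ} {b : Fin n →₀ ℕ}
    (h : (degLex (σ := Fin n)).degree p = b) : p.totalDegree = ∑ i, b i := by
  rw [← MvPolynomial.degree_degLexDegree, h, Finsupp.degree_eq_sum]

lemma Reg.SS_nonempty (hR : Reg K V) (b : Fin n →₀ ℕ) : (SS K b).Nonempty := by
  obtain ⟨z, hz, h⟩ := hR.exists_max (MvPolynomial.monomial b 1)
  refine ⟨‖MvPolynomial.eval z (MvPolynomial.monomial b 1)‖, norm_nonneg _,
    MvPolynomial.monomial b 1, monic_monomial_one, ?_, h⟩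
  classical
  rw [degree_monomial, if_neg one_ne_zero]

lemma Reg.SS_ge (hR : Reg K V) {A : ℝ}
    (hA : ∀ z : Fin n → ℂ, (∀ i, ‖z i‖ = 1) → V z ≤ A) {b : Fin n →₀ ℕ} {M : ℝ}
    (hM : M ∈ SS K b) : Real.exp (-(A * (∑ i, b i : ℕ))) ≤ M := by
  obtain ⟨hM0, p, hmon, hdeg, hp⟩ := hM
  have htd := totalDegree_of_degree hdeg
  have h1 := hR.coeff_le hA (p := p) (k := ∑ i, b i) htd.le hp b
  have h2 : MvPolynomial.coeff b p = 1 := by
    rw [← hdeg]; exact hmon
  rw [h2, norm_one] at h1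
  rw [Real.exp_neg, inv_le_iff_one_le_mul₀ (Real.exp_pos _), mul_comm A]
  exact h1

lemma Reg.YY_ge (hR : Reg K V) {A : ℝ}
    (hA : ∀ z : Fin n → ℂ, (∀ i, ‖z i‖ = 1) → V z ≤ A) (b : Fin n →₀ ℕ) :
    Real.exp (-(A * (∑ i, b i : ℕ))) ≤ YY K b :=
  le_csInf (hR.SS_nonempty b) fun _ hM => hR.SS_ge hA hM

lemma Reg.YY_pos (hR : Reg K V) (b : Fin n →₀ ℕ) : 0 < YY K b := by
  obtain ⟨A, -, hA⟩ := hR.exists_A
  exact (Real.exp_pos _).trans_le (hR.YY_ge hA b)

lemma SS_bdd (K : Set (Fin n → ℂ)) (b : Fin n →₀ ℕ) : BddBelow (SS K b) := ⟨0, fun _ h => h.1⟩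

lemma Reg.YY_mul (hR : Reg K V) (b b' : Fin n →₀ ℕ) : YY K (b + b') ≤ YY K b * YY K b' := by
  have key : ∀ M ∈ SS K b, ∀ M' ∈ SS K b', YY K (b + b') ≤ M * M' := by
    rintro M ⟨hM0, p, hpm, hpd, hp⟩ M' ⟨hM'0, q, hqm, hqd, hq⟩
    refine csInf_le (SS_bdd K _) ⟨mul_nonneg hM0 hM'0, p * q, hpm.mul hqm, ?_, ?_⟩
    · rw [degree_mul hpm.ne_zero hqm.ne_zero, hpd, hqd]
    · intro x hx
      rw [map_mul, norm_mul]
      exact mul_le_mul (hp x hx) (hq x hx) (norm_nonneg _) hM0
  have hb' := hR.YY_pos b'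
  have h1 : ∀ M ∈ SS K b, YY K (b + b') / M ≤ YY K b' := by
    intro M hM
    have hMpos : 0 < M := (hR.YY_pos b).trans_le (csInf_le (SS_bdd K b) hM)
    refine le_csInf (hR.SS_nonempty b') fun M' hM' => ?_
    rw [div_le_iff₀ hMpos, mul_comm]
    exact key M hM M' hM'
  have h2 : YY K (b + b') / YY K b' ≤ YY K b := by
    refine le_csInf (hR.SS_nonempty b) fun M hM => ?_
    have hMpos : 0 < M := (hR.YY_pos b).trans_le (csInf_le (SS_bdd K b) hM)
    have := h1 M hM
    rw [div_le_iff₀ hMpos] at this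
    rw [div_le_iff₀ hb', mul_comm]
    exact this
  rwa [div_le_iff₀ hb'] at h2

lemma Reg.exists_near (hR : Reg K V) (b : Fin n →₀ ℕ) :
    ∃ p : MvPolynomial (Fin n) ℂ, (degLex (σ := Fin n)).Monic p ∧
      (degLex (σ := Fin n)).degree p = b ∧ ∀ x ∈ K, ‖MvPolynomial.eval x p‖ ≤ 2 * YY K b := by
  have h1 : YY K b < 2 * YY K b := by have := hR.YY_pos b; linarith
  obtain ⟨M, hM, hlt⟩ := exists_lt_of_csInf_lt (hR.SS_nonempty b) h1
  obtain ⟨-, p, hpm, hpd, hp⟩ := hM
  exact ⟨p, hpm, hpd, fun x hx => (hp x hx).trans hlt.le⟩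

/-- the Vandermonde determinant -/
def dt {n k : ℕ} (z : Idx n k → (Fin n → ℂ)) : ℂ :=
  Matrix.det (Matrix.of (fun a b : Idx n k => ∏ i, z a i ^ ((b.1 i : ℕ))))

/-- the set of values -/
def VS (K : Set (Fin n → ℂ)) (k : ℕ) : Set ℝ :=
  {s : ℝ | ∃ z : Idx n k → (Fin n → ℂ), (∀ a, z a ∈ K) ∧ s = ‖dt z‖}

/-- the maximal Vandermonde determinant -/
noncomputable def VV (K : Set (Fin n → ℂ)) (k : ℕ) : ℝ := sSup (VS K k)

lemma continuous_dt {n k : ℕ} : Continuous (dt : (Idx n k → (Fin n → ℂ)) → ℂ) := by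
  unfold dt
  refine Continuous.matrix_det ?_
  refine continuous_pi fun a => continuous_pi fun b => ?_
  simp only [Matrix.of_apply]
  fun_prop

lemma syn_inj {n k : ℕ} : Function.Injective
    (fun b : Idx n k => (degLex (σ := Fin n)).toSyn (ex b)) := by
  intro a b h
  exact ex_injective ((degLex (σ := Fin n)).toSyn.injective h)

lemma Reg.norm_dt_le (hR : Reg K V) {k : ℕ} (z : Idx n k → (Fin n → ℂ)) (hz : ∀ a, z a ∈ K) :
    ‖dt z‖ ≤ (NN n k).factorial * ∏ b : Idx n k, (2 * YY K (ex b)) := by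
  choose t htm htd ht using fun b : Idx n k => hR.exists_near (ex b)
  have htot : ∀ b, (t b).totalDegree ≤ k := by
    intro b
    rw [totalDegree_of_degree (htd b)]
    exact ex_sum_le b
  have hmul : (Matrix.of (fun a b : Idx n k => MvPolynomial.eval (z a) (t b))) =
      (Matrix.of (fun a b : Idx n k => ∏ i, z a i ^ ((b.1 i : ℕ)))) *
      (Matrix.of (fun b' b : Idx n k => MvPolynomial.coeff (ex b') (t b))) := by
    ext a b
    rw [Matrix.mul_apply]
    simp only [Matrix.of_apply]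
    rw [eval_eq_sum (htot b)]
    refine sum_congr rfl fun b' _ => ?_
    rw [mul_comm]; rfl
  have hU : (Matrix.of (fun b' b : Idx n k => MvPolynomial.coeff (ex b') (t b))).det = 1 := by
    refine det_unitriangular (fun b : Idx n k => (degLex (σ := Fin n)).toSyn (ex b)) syn_inj _ ?_ ?_
    · intro i j hij
      simp only [Matrix.of_apply]
      apply coeff_eq_zero_of_lt (m := degLex (σ := Fin n))
      rw [htd]; exact hij
    · intro i
      simp only [Matrix.of_apply]
      have := htm i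
      unfold Monic leadingCoeff at this
      rwa [htd] at this
  have hdet : dt z = (Matrix.of (fun a b : Idx n k => MvPolynomial.eval (z a) (t b))).det := by
    rw [hmul, Matrix.det_mul, hU, mul_one]; rfl
  rw [hdet]
  exact norm_det_le_of_col _ _ fun a b => ht b (z a) (hz a)

lemma Reg.exists_dt_ge (hR : Reg K V) (k : ℕ) :
    ∃ z : Idx n k → (Fin n → ℂ), (∀ a, z a ∈ K) ∧ ∏ b : Idx n k, (YY K (ex b) / 2) ≤ ‖dt z‖ := by
  refine exists_det_ge' (fun b : Idx n k => (degLex (σ := Fin n)).toSyn (ex b)) syn_inj K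
    (fun b x => mono b x) (fun b => YY K (ex b) / 2) (fun b => by have := hR.YY_pos (ex b); positivity)
    ?_
  intro b c
  by_contra hcon
  push Not at hcon
  -- the monic polynomial
  let c' : Idx n k → ℂ := fun b' => if b' = b then 1 else
    if (degLex (σ := Fin n)).toSyn (ex b') < (degLex (σ := Fin n)).toSyn (ex b) then c b' else 0
  have heval : ∀ x, MvPolynomial.eval x (ofCoef c') = mono b x +
      ∑ j ∈ univ.filter (fun j : Idx n k => (degLex (σ := Fin n)).toSyn (ex j) <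
        (degLex (σ := Fin n)).toSyn (ex b)), c j * mono j x := by
    intro x
    rw [eval_ofCoef, ← add_sum_erase _ _ (mem_univ b)]
    congr 1
    · simp [c']
    · rw [sum_filter]
      have h1 : ∀ j ∈ univ.erase b, c' j * mono j x =
          if (degLex (σ := Fin n)).toSyn (ex j) < (degLex (σ := Fin n)).toSyn (ex b)
            then c j * mono j x else 0 := by
        intro j hj
        have hjb : j ≠ b := ne_of_mem_erase hj
        simp only [c', if_neg hjb]
        split_ifs <;> simp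
      rw [sum_congr rfl h1, ← add_sum_erase _ _ (mem_univ b)]
      simp
  have hcoeff_b : MvPolynomial.coeff (ex b) (ofCoef c') = 1 := by
    rw [coeff_ofCoef]; simp [c']
  have hcoeff_gt : ∀ d, (degLex (σ := Fin n)).toSyn (ex b) < (degLex (σ := Fin n)).toSyn d →
      MvPolynomial.coeff d (ofCoef c') = 0 := by
    intro d hd
    by_cases hk : ∑ i, d i ≤ k
    · have h1 : d = ex (ofEx d hk) := (ex_ofEx d hk).symm
      rw [h1, coeff_ofCoef]
      rw [h1] at hd
      have h2 : ofEx d hk ≠ b := by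
        intro h; rw [h] at hd; exact lt_irrefl _ hd
      simp only [c', if_neg h2, if_neg hd.not_gt]
    · by_contra hne
      have h1 := MvPolynomial.le_totalDegree (MvPolynomial.mem_support_iff.mpr hne)
      rw [Finsupp.sum_fintype _ _ (fun _ => rfl)] at h1
      exact hk (h1.trans (totalDegree_ofCoef c'))
  have hdeg : (degLex (σ := Fin n)).degree (ofCoef c') = ex b := by
    apply (degLex (σ := Fin n)).toSyn.injective
    apply le_antisymm
    · rw [degree_le_iff]
      intro d hd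
      by_contra hlt
      rw [not_le] at hlt
      exact (MvPolynomial.mem_support_iff.mp hd) (hcoeff_gt d hlt)
    · apply le_degree
      rw [MvPolynomial.mem_support_iff, hcoeff_b]
      exact one_ne_zero
  have hmon : (degLex (σ := Fin n)).Monic (ofCoef c') := by
    unfold Monic leadingCoeff
    rw [hdeg, hcoeff_b]
  have hpos := hR.YY_pos (ex b)
  have hmem : YY K (ex b) / 2 ∈ SS K (ex b) :=
    ⟨by positivity, ofCoef c', hmon, hdeg, fun x hx => by rw [heval]; exact (hcon x hx).le⟩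
  have := csInf_le (SS_bdd K (ex b)) hmem
  unfold YY at *
  linarith

lemma Reg.VS_bdd (hR : Reg K V) (k : ℕ) : BddAbove (VS K k) := by
  refine ⟨(NN n k).factorial * ∏ b : Idx n k, (2 * YY K (ex b)), ?_⟩
  rintro _ ⟨z, hz, rfl⟩
  exact hR.norm_dt_le z hz

lemma Reg.norm_dt_le_VV (hR : Reg K V) {k : ℕ} (z : Idx n k → (Fin n → ℂ)) (hz : ∀ a, z a ∈ K) :
    ‖dt z‖ ≤ VV K k := le_csSup (hR.VS_bdd k) ⟨z, hz, rfl⟩

lemma Reg.VV_le (hR : Reg K V) (k : ℕ) :
    VV K k ≤ (NN n k).factorial * ∏ b : Idx n k, (2 * YY K (ex b)) := by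
  obtain ⟨x, hx⟩ := hR.nonempty
  refine csSup_le ⟨_, fun _ => x, fun _ => hx, rfl⟩ ?_
  rintro _ ⟨z, hz, rfl⟩
  exact hR.norm_dt_le z hz

lemma Reg.le_VV (hR : Reg K V) (k : ℕ) : ∏ b : Idx n k, (YY K (ex b) / 2) ≤ VV K k := by
  obtain ⟨z, hz, h⟩ := hR.exists_dt_ge k
  exact h.trans (hR.norm_dt_le_VV z hz)

lemma Reg.VV_pos (hR : Reg K V) (k : ℕ) : 0 < VV K k :=
  lt_of_lt_of_le (prod_pos fun b _ => by have := hR.YY_pos (ex b); positivity) (hR.le_VV k)

/-- Fekete points exist -/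
lemma Reg.exists_fekete (hR : Reg K V) (k : ℕ) :
    ∃ z : Idx n k → (Fin n → ℂ), (∀ a, z a ∈ K) ∧ ‖dt z‖ = VV K k := by
  have hc : IsCompact (Set.univ.pi fun _ : Idx n k => K) := isCompact_univ_pi fun _ => hR.compact
  obtain ⟨x, hx⟩ := hR.nonempty
  obtain ⟨z, hz, hmax⟩ := hc.exists_isMaxOn ⟨fun _ => x, fun _ _ => hx⟩
    (continuous_dt.norm.continuousOn)
  refine ⟨z, fun a => hz a (Set.mem_univ a), le_antisymm
    (hR.norm_dt_le_VV z fun a => hz a (Set.mem_univ a)) ?_⟩
  refine csSup_le ⟨_, z, fun a => hz a (Set.mem_univ a), rfl⟩ ?_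
  rintro _ ⟨z', hz', rfl⟩
  exact hmax (fun a _ => hz' a)

lemma log_factorial_le (N : ℕ) : Real.log (N.factorial : ℝ) ≤ N * Real.log N := by
  rcases Nat.eq_zero_or_pos N with rfl | hN
  · simp
  have h1 : (N.factorial : ℝ) ≤ (N : ℝ) ^ N := by exact_mod_cast Nat.factorial_le_pow N
  calc Real.log (N.factorial : ℝ) ≤ Real.log ((N : ℝ) ^ N) :=
        Real.log_le_log (by exact_mod_cast Nat.factorial_pos N) h1
    _ = _ := Real.log_pow _ _

lemma Reg.log_VV_le (hR : Reg K V) (k : ℕ) :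
    Real.log (VV K k) ≤ ∑ b : Idx n k, Real.log (YY K (ex b)) +
      NN n k * (Real.log (NN n k) + Real.log 2) := by
  have h1 := Real.log_le_log (hR.VV_pos k) (hR.VV_le k)
  have hY : ∀ b : Idx n k, 0 < YY K (ex b) := fun b => hR.YY_pos _
  rw [Real.log_mul (by exact_mod_cast (Nat.factorial_pos _).ne')
    (prod_pos fun b _ => by have := hY b; positivity).ne', Real.log_prod
    (fun b _ => by have := hY b; positivity)] at h1
  have h2 : ∀ b ∈ (univ : Finset (Idx n k)), Real.log (2 * YY K (ex b)) =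
      Real.log 2 + Real.log (YY K (ex b)) := fun b _ =>
    Real.log_mul two_ne_zero (hY b).ne'
  rw [sum_congr rfl h2, sum_add_distrib, sum_const, nsmul_eq_mul, card_univ] at h1
  have h3 := log_factorial_le (NN n k)
  have h4 : (Fintype.card (Idx n k) : ℝ) = NN n k := rfl
  rw [h4] at h1
  linarith

lemma Reg.le_log_VV (hR : Reg K V) (k : ℕ) :
    ∑ b : Idx n k, Real.log (YY K (ex b)) - NN n k * Real.log 2 ≤ Real.log (VV K k) := by
  have hY : ∀ b : Idx n k, 0 < YY K (ex b) := fun b => hR.YY_pos _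
  have h1 := Real.log_le_log (prod_pos fun b _ => by have := hY b; positivity) (hR.le_VV k)
  rw [Real.log_prod (fun b _ => by have := hY b; positivity)] at h1
  have h2 : ∀ b ∈ (univ : Finset (Idx n k)), Real.log (YY K (ex b) / 2) =
      Real.log (YY K (ex b)) - Real.log 2 := fun b _ =>
    Real.log_div (hY b).ne' two_ne_zero
  rw [sum_congr rfl h2, sum_sub_distrib, sum_const, nsmul_eq_mul, card_univ] at h1
  exact h1

/-- lower bound for `log VV` in terms of `ell` -/
lemma Reg.log_VV_ge_ell (hR : Reg K V) {A : ℝ}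
    (hA : ∀ z : Fin n → ℂ, (∀ i, ‖z i‖ = 1) → V z ≤ A) (k : ℕ) :
    -(A * ell n k) - NN n k * Real.log 2 ≤ Real.log (VV K k) := by
  refine le_trans ?_ (hR.le_log_VV k)
  have h1 : ∀ b : Idx n k, -(A * (∑ i, ex b i : ℕ)) ≤ Real.log (YY K (ex b)) := by
    intro b
    rw [Real.le_log_iff_exp_le (hR.YY_pos _)]
    exact hR.YY_ge hA _
  have h2 : ∑ b : Idx n k, -(A * ((∑ i, ex b i : ℕ) : ℝ)) ≤ ∑ b : Idx n k, Real.log (YY K (ex b)) :=
    sum_le_sum fun b _ => h1 b
  rw [sum_neg_distrib, ← mul_sum, ← ell_eq_sum_ex] at h2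
  linarith

lemma tendsto_log_NN_div (n : ℕ) :
    Tendsto (fun k : ℕ => Real.log (NN n k) / k) atTop (𝓝 0) := by
  have h1 : Tendsto (fun k : ℕ => (n : ℝ) * (Real.log (k + 1 : ℝ) / k)) atTop (𝓝 0) := by
    have h2 : Tendsto (fun k : ℕ => Real.log (k + 1 : ℝ) / k) atTop (𝓝 0) := by
      have h3 : Tendsto (fun x : ℝ => Real.log x / x) atTop (𝓝 0) :=
        Real.isLittleO_log_id_atTop.tendsto_div_nhds_zero
      have h4 : Tendsto (fun k : ℕ => Real.log ((k : ℝ) + 1) / ((k : ℝ) + 1)) atTop (𝓝 0) :=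
        h3.comp (tendsto_atTop_add_const_right _ _ tendsto_natCast_atTop_atTop)
      have h5 : Tendsto (fun k : ℕ => ((k : ℝ) + 1) / k) atTop (𝓝 1) := by
        have h6 : Tendsto (fun k : ℕ => 1 + 1 / (k : ℝ)) atTop (𝓝 (1 + 0)) :=
          tendsto_const_nhds.add tendsto_one_div_atTop_nhds_zero_nat
        rw [add_zero] at h6
        refine h6.congr' ?_
        filter_upwards [eventually_gt_atTop 0] with k hk
        have : (k : ℝ) ≠ 0 := by exact_mod_cast hk.ne'
        field_simp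
      have h7 := h4.mul h5
      rw [zero_mul] at h7
      refine h7.congr' ?_
      filter_upwards [eventually_gt_atTop 0] with k hk
      have : (k : ℝ) ≠ 0 := by exact_mod_cast hk.ne'
      field_simp
    simpa using h2.const_mul (n : ℝ)
  refine squeeze_zero' ?_ ?_ h1
  · filter_upwards with k
    have : (1 : ℝ) ≤ NN n k := by exact_mod_cast NN_pos n k
    exact div_nonneg (Real.log_nonneg this) (Nat.cast_nonneg _)
  · filter_upwards with k
    rw [← mul_div_assoc]
    have h2 : Real.log (NN n k) ≤ n * Real.log (k + 1 : ℝ) := by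
      rw [← Real.log_pow]
      refine Real.log_le_log (by exact_mod_cast NN_pos n k) ?_
      exact_mod_cast NN_le n k
    gcongr

/-- Zaharjuta: the limit defining the transfinite diameter exists. -/
theorem Reg.tendsto_log_VV (hR : Reg K V) (hn : 0 < n) :
    ∃ Λ : ℝ, Tendsto (fun k : ℕ => Real.log (VV K k) / ell n k) atTop (𝓝 Λ) := by
  obtain ⟨A, hA0, hA⟩ := hR.exists_A
  have hsub := subadditive_avg (n := n) (fun b => Real.log (YY K b)) (by
    intro α β
    rw [← Real.log_mul (hR.YY_pos α).ne' (hR.YY_pos β).ne']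
    exact Real.log_le_log (hR.YY_pos _) (hR.YY_mul α β))
  have hN : ∀ k, (0 : ℝ) < NN n k := fun k => by exact_mod_cast NN_pos n k
  have hL := Lc_pos hn
  have hsumge : ∀ k, -(A * ell n k) ≤ ∑ b : Idx n k, Real.log (YY K (ex b)) := by
    intro k
    have h1 : ∀ b : Idx n k, -(A * (∑ i, ex b i : ℕ)) ≤ Real.log (YY K (ex b)) := by
      intro b
      rw [Real.le_log_iff_exp_le (hR.YY_pos _)]
      exact hR.YY_ge hA _
    have h2 : ∑ b : Idx n k, -(A * ((∑ i, ex b i : ℕ) : ℝ)) ≤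
        ∑ b : Idx n k, Real.log (YY K (ex b)) := sum_le_sum fun b _ => h1 b
    rw [sum_neg_distrib, ← mul_sum, ← ell_eq_sum_ex] at h2
    linarith
  have hbdd : BddBelow (Set.range fun k : ℕ =>
      (∑ b : Idx n k, Real.log (YY K (ex b))) / NN n k / k) := by
    refine ⟨-(A * Lc n), ?_⟩
    rintro _ ⟨k, rfl⟩
    rcases Nat.eq_zero_or_pos k with rfl | hk
    · simp; positivity
    have hk' : (0 : ℝ) < k := by exact_mod_cast hk
    simp only
    rw [div_div, le_div_iff₀ (by have := hN k; positivity)]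
    have := hsumge k
    rw [ell_eq] at this
    linarith
  have hlim := hsub.tendsto_lim hbdd
  set Λ0 := hsub.lim with hΛ0
  refine ⟨Λ0 / Lc n, ?_⟩
  have hlim2 : Tendsto (fun k : ℕ => (∑ b : Idx n k, Real.log (YY K (ex b))) / ell n k) atTop
      (𝓝 (Λ0 / Lc n)) := by
    refine (hlim.div_const (Lc n)).congr fun k => ?_
    rw [ell_eq]
    rw [div_div, div_div]
    congr 1
    ring
  -- the errors tend to zero
  have herr : Tendsto (fun k : ℕ => (NN n k * (Real.log (NN n k) + Real.log 2)) / ell n k) atTop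
      (𝓝 0) := by
    have h1 : Tendsto (fun k : ℕ => (Real.log (NN n k) / k + Real.log 2 / k) / Lc n) atTop
        (𝓝 ((0 + 0) / Lc n)) :=
      ((tendsto_log_NN_div n).add (tendsto_const_div_atTop_nhds_zero_nat _)).div_const _
    rw [add_zero, zero_div] at h1
    refine h1.congr' ?_
    filter_upwards [eventually_gt_atTop 0] with k hk
    have hk' : (k : ℝ) ≠ 0 := by exact_mod_cast hk.ne'
    have := (hN k).ne'
    rw [ell_eq]
    field_simp
  have herr2 : Tendsto (fun k : ℕ => (NN n k * Real.log 2) / ell n k) atTop (𝓝 0) := by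
    have h1 : Tendsto (fun k : ℕ => (Real.log 2 / k) / Lc n) atTop (𝓝 (0 / Lc n)) :=
      (tendsto_const_div_atTop_nhds_zero_nat _).div_const _
    rw [zero_div] at h1
    refine h1.congr' ?_
    filter_upwards [eventually_gt_atTop 0] with k hk
    have hk' : (k : ℝ) ≠ 0 := by exact_mod_cast hk.ne'
    have := (hN k).ne'
    rw [ell_eq]
    field_simp
  have hell : ∀ k, 0 ≤ ell n k := by
    intro k; rw [ell_eq]; have := hN k; positivity
  have hup := hlim2.add herr
  have hlo := hlim2.sub herr2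
  rw [add_zero] at hup
  rw [sub_zero] at hlo
  refine tendsto_of_tendsto_of_tendsto_of_le_of_le hlo hup ?_ ?_
  · intro k
    simp only
    rw [← sub_div]
    exact div_le_div_of_nonneg_right (hR.le_log_VV k) (hell k)
  · intro k
    simp only
    rw [← add_div]
    exact div_le_div_of_nonneg_right (hR.log_VV_le k) (hell k)

end

end Pool.Agent.La9f24d
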